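import Pool.Agent.helper12.FI4.AllX
import Pool.Agent.helper35.BQ.All
import Pool.Agent.helper51.L5.PRO5

/-!
# MP_baa4d7_al: extensions. From `E = G` to `E_B / E[B]` cyclic of order prime to `p`, for properties of the defect group

`P G D` is a property of the pair `(G, D)` which is inherited by `(E, i D)`, `i : G → E` injective. If the alternating sums (for one `d`,
or summed over `d`: a functional `f`) vanish for `E = G` and all blocks with `P G D` then they vanish for all extensions `E` with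
`E_B / E[B]` cyclic of order prime to `p`.
-/

set_option autoImplicit false

namespace Pool.Agent.XD

open Pool.Agent.helper58.DC Pool.Agent.DI Pool.Agent.GR Pool.Agent.OB Pool.Agent.DR Pool.Agent.FI Pool.Agent.FI3 Pool.Agent.FI4

/-- A functional on the finitely supported functions of `d`. -/
def Fun (f : (ℤ → ℤ) → ℤ) : Prop :=
  ∀ (ι : Type) (s : Finset ι) (c : ι → ℤ) (a : ι → ℤ → ℤ), (∀ i ∈ s, {d | a i d ≠ 0}.Finite) →
    f (fun d => ∑ i ∈ s, c i * a i d) = ∑ i ∈ s, c i * f (a i)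

theorem Fun_eval (d : ℤ) : Fun (fun a => a d) := fun _ _ _ _ _ => rfl

theorem Fun_sum : Fun (fun a => ∑ᶠ d, a d) := by
  intro ι s c a h
  change ∑ᶠ d, ∑ i ∈ s, c i * a i d = ∑ i ∈ s, c i * ∑ᶠ d, a i d
  rw [finsum_sum_comm s (fun d i => c i * a i d)]
  · refine Finset.sum_congr rfl fun i hi => ?_
    exact (mul_finsum (fun d => a i d) (c i)).symm
  · intro i hi
    refine (h i hi).subset fun d hd => ?_
    simp only [Function.mem_support, ne_eq] at hd
    exact fun h0 => hd (by rw [h0, mul_zero])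

/-- the property of the groups -/
def Her (P : (G : Type) → [Group G] → Subgroup G → Prop) : Prop :=
  ∀ (G E : Type) [Group G] [Group E] (i : G →* E), Function.Injective i → ∀ D : Subgroup G, P G D → P E (D.map i)

/-- the claim for `E = G` -/
def Main (p : ℕ) (M : Ideal (integralClosure ℤ ℂ)) (f : (ℤ → ℤ) → ℤ)
    (P : (G : Type) → [Group G] → Subgroup G → Prop) : Prop :=
  ∀ (G : Type) [Group G] [Finite G], IsOp p (⊤ : Subgroup G) ⊥ → ∀ χ ∈ Irr G, ∀ (D : Subgroup G) (x : G),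
    DefAt p M χ D x → P G D → f (fun d => altSum (trivE G) p M χ d ⊤) = 0

theorem Fun_zero {f : (ℤ → ℤ) → ℤ} (hf : Fun f) : f (fun _ => 0) = 0 := by
  have h := hf Unit ∅ (fun _ => 0) (fun _ _ => 0) (fun i hi => absurd hi (Finset.notMem_empty i))
  simpa using h

theorem Fun_finsum {f : (ℤ → ℤ) → ℤ} (hf : Fun f) {ι : Type} [Finite ι] (c : ι → ℤ) (a : ι → ℤ → ℤ)
    (h : ∀ i, {d | a i d ≠ 0}.Finite) : f (fun d => ∑ᶠ i, c i * a i d) = ∑ᶠ i, c i * f (a i) := by
  have : Fintype ι := Fintype.ofFinite ι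
  rw [finsum_eq_sum_of_fintype]
  have h1 : (fun d => ∑ᶠ i, c i * a i d) = fun d => ∑ i, c i * a i d := by
    funext d
    rw [finsum_eq_sum_of_fintype]
  rw [h1]
  exact hf ι Finset.univ c a fun i _ => h i

/-- `A` cyclic of order prime to `p`. -/
theorem XD8 {p : ℕ} {M : Ideal (integralClosure ℤ ℂ)} (hS : Setup p M) {f : (ℤ → ℤ) → ℤ} (hf : Fun f)
    {P : (G : Type) → [Group G] → Subgroup G → Prop} (hP : Her P) (hmain : Main p M f P)
    (G : Type) [Group G] [Finite G] (hO : IsOp p (⊤ : Subgroup G) ⊥) (χ : G → ℂ) (hχ : χ ∈ Irr G) (D : Subgroup G) (x : G)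
    (hD : DefAt p M χ D x) (hPD : P G D) (E A : Type) [Group E] [Group A] [Finite E] (X : Extension G E A)
    (hcyc : IsCyclic A) (hl : ¬ p ∣ Nat.card A) : f (fun d => altSum X p M χ d ⊤) = 0 := by
  have hp : Fact p.Prime := ⟨hS.pr⟩
  suffices h : ∀ n : ℕ, ∀ (E A : Type) [Group E] [Group A] [Finite E] (X : Extension G E A), Nat.card A = n →
      IsCyclic A → ¬ p ∣ Nat.card A → f (fun d => altSum X p M χ d ⊤) = 0 from h _ E A X rfl hcyc hl
  intro n
  induction n using Nat.strong_induction_on with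
  | _ n ih =>
    intro E A _ _ _ X hn hcyc hl
    have hfA : Finite A := Finite.of_surjective X.proj X.proj_surjective
    have hfin : ∀ U : Subgroup A, {d : ℤ | altSum X p M χ d U ≠ 0}.Finite := fun U =>
      Pool.Agent.DR.AllDI.iFNx G E A X p M χ U
    by_cases hst : Stable X M χ
    · classical
      obtain ⟨R, hR1, hR2⟩ := Pool.Agent.TZ.All.zIQR G E A X p M hS.max hS.mem hcyc hl hO χ hχ hst
      -- the relation for `f`
      have h0 : ∑ᶠ U : Subgroup A, (Nat.card U : ℤ) ^ 2 * f (fun d => altSum X p M χ d U) = 0 := by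
        rw [← Fun_finsum hf (fun U : Subgroup A => (Nat.card U : ℤ) ^ 2) (fun U d => altSum X p M χ d U) hfin]
        have h1 : (fun d => ∑ᶠ U : Subgroup A, (Nat.card U : ℤ) ^ 2 * altSum X p M χ d U) =
            fun d => ∑ b ∈ R, (Nat.card A : ℤ) * altSum (trivE E) p M b d ⊤ := by
          funext d
          rw [← hR2 d, Finset.mul_sum]
        rw [h1, hf (E → ℂ) R (fun _ => (Nat.card A : ℤ)) (fun b d => altSum (trivE E) p M b d ⊤)
          (fun b _ => Pool.Agent.DR.AllDI.iFNx E E Unit (trivE E) p M b ⊤)]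
        refine Finset.sum_eq_zero fun b hb => ?_
        have h2 := Pool.Agent.FI4.AllX.xX2 p M hS G E A X hcyc hl χ hχ hst D x hD b (hR1 b hb).1 (hR1 b hb).2
        rw [hmain E (Pool.Agent.TZ.All.zIOP G E A X p hl hO) b (hR1 b hb).1 (D.map X.inc) (X.inc x) h2
          (hP G E X.inc X.inc_injective D hPD), mul_zero]
      rw [Pool.Agent.TY.All.yYCM A (fun U => f (fun d => altSum X p M χ d U))] at h0
      have hsup : ∀ U : Subgroup A, ∑ᶠ V : {V : Subgroup A // U ≤ V}, f (fun d => altSum X p M χ d V.1) =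
          f (fun d => altSum (resE X U) p M χ d ⊤) := by
        intro U
        have h1 := Fun_finsum hf (fun _ : {V : Subgroup A // U ≤ V} => (1 : ℤ)) (fun V d => altSum X p M χ d V.1)
          (fun V => hfin V.1)
        simp only [one_mul] at h1
        rw [← h1]
        congr 1
        funext d
        exact (Pool.Agent.DR.AllDI.iREx G E A X p M χ hχ d U).symm
      have : Fintype (Subgroup A) := Fintype.ofFinite _
      rw [finsum_eq_sum_of_fintype, ← Finset.add_sum_erase _ _ (Finset.mem_univ (⊤ : Subgroup A))] at h0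
      have h1 : ∑ U ∈ (Finset.univ : Finset (Subgroup A)).erase ⊤,
          (Nat.card {x : A × A // Subgroup.closure {x.1, x.2} = U} : ℤ) *
            ∑ᶠ V : {V : Subgroup A // U ≤ V}, f (fun d => altSum X p M χ d V.1) = 0 := by
        refine Finset.sum_eq_zero fun U hU => ?_
        have hU' : U ≠ ⊤ := Finset.ne_of_mem_erase hU
        rw [hsup U]
        have h2 : Nat.card U < n := by
          rw [← hn]
          refine lt_of_le_of_ne (Nat.le_of_dvd Nat.card_pos (Subgroup.card_subgroup_dvd_card U)) ?_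
          intro h3
          exact hU' (Subgroup.eq_top_of_card_eq U h3)
        have hUc : IsCyclic U := inferInstance
        rw [ih (Nat.card U) h2 (U.comap X.proj) U (resE X U) rfl hUc
          (fun h4 => hl (h4.trans (Subgroup.card_subgroup_dvd_card U))), mul_zero]
      rw [h1, add_zero] at h0
      have h3 : IsCyclic (⊤ : Subgroup A) := inferInstance
      rw [Pool.Agent.TY.All.yYJ1 A ⊤ h3, Subgroup.card_top] at h0
      have h4 : ∑ᶠ V : {V : Subgroup A // ⊤ ≤ V}, f (fun d => altSum X p M χ d V.1) = f (fun d => altSum X p M χ d ⊤) := by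
        have h5 : ∀ V : {V : Subgroup A // ⊤ ≤ V}, V = ⟨⊤, le_rfl⟩ := by
          rintro ⟨V, hV⟩
          simpa using hV
        rw [finsum_eq_single _ (⟨⊤, le_rfl⟩ : {V : Subgroup A // ⊤ ≤ V})]
        intro V hV
        exact absurd (h5 V) hV
      rw [h4] at h0
      have h6 : (0 : ℤ) < (Pool.Agent.TY.J2 (Nat.card A) : ℤ) := by
        have : 0 < Pool.Agent.TY.J2 (Nat.card A) := by
          unfold Pool.Agent.TY.J2
          apply Finset.prod_pos
          intro l hl'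
          have hlp : l.Prime := Nat.prime_of_mem_primeFactors hl'
          have h7 : 1 < l ^ 2 := Nat.one_lt_pow (by norm_num) hlp.one_lt
          exact Nat.mul_pos (pow_pos hlp.pos _) (by omega)
        exact_mod_cast this
      rcases mul_eq_zero.mp h0 with h7 | h7
      · omega
      · exact h7
    · have h1 : (fun d => altSum X p M χ d ⊤) = fun _ => 0 := by
        funext d
        by_contra h2
        exact hst (Pool.Agent.DR.AllDI.iSTx G E A X p M χ hχ d h2)
      rw [h1]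
      exact Fun_zero hf

/-- The general case, `s` of order prime to `p`. -/
theorem XD9 {p : ℕ} {M : Ideal (integralClosure ℤ ℂ)} (hS : Setup p M) {f : (ℤ → ℤ) → ℤ} (hf : Fun f)
    {P : (G : Type) → [Group G] → Subgroup G → Prop} (hP : Her P) (hmain : Main p M f P)
    (G : Type) [Group G] [Finite G] (hO : IsOp p (⊤ : Subgroup G) ⊥) (χ : G → ℂ) (hχ : χ ∈ Irr G) (D : Subgroup G) (x : G)
    (hD : DefAt p M χ D x) (hPD : P G D) (E A : Type) [Group E] [Group A] [Finite E] (X : Extension G E A)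
    (s : A) (hps : ¬ p ∣ orderOf s)
    (hgen : ∀ a ∈ Pool.Agent.BQ.AB X M χ, ∃ k : ℤ, s ^ k * a ∈ Pool.Agent.BQ.AI X M χ) (U : Subgroup A) :
    f (fun d => altSum X p M χ d U) = 0 := by
  have : Fact p.Prime := ⟨hS.pr⟩
  have hfA : Finite A := Finite.of_surjective X.proj X.proj_surjective
  have hfin : ∀ U : Subgroup A, {d : ℤ | altSum X p M χ d U ≠ 0}.Finite := fun U =>
    Pool.Agent.DR.AllDI.iFNx G E A X p M χ U
  have hz : ∀ V : Subgroup A, ¬ (Pool.Agent.BQ.AI X M χ ≤ V ∧ V ≤ Pool.Agent.BQ.AB X M χ) →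
      f (fun d => altSum X p M χ d V) = 0 := by
    intro V hV
    have h1 : (fun d => altSum X p M χ d V) = fun _ => 0 := by
      funext d
      exact (Pool.Agent.BQ.All.qZRO G E A X p M hS.max hS.mem χ hχ d V hV).2
    rw [h1]
    exact Fun_zero hf
  have hsup : ∀ U : Subgroup A, ∑ᶠ V : {V : Subgroup A // U ≤ V}, f (fun d => altSum X p M χ d V.1) =
      f (fun d => altSum (resE X U) p M χ d ⊤) := by
    intro U
    have h1 := Fun_finsum hf (fun _ : {V : Subgroup A // U ≤ V} => (1 : ℤ)) (fun V d => altSum X p M χ d V.1)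
      (fun V => hfin V.1)
    simp only [one_mul] at h1
    rw [← h1]
    congr 1
    funext d
    exact (Pool.Agent.DR.AllDI.iREx G E A X p M χ hχ d U).symm
  refine Pool.Agent.DR.AllDI.iD13 A (fun V => f (fun d => altSum X p M χ d V)) ?_ U
  intro U
  by_cases hc : Pool.Agent.BQ.AI X M χ ≤ Pool.Agent.BQ.AB X M χ ∧ U ≤ Pool.Agent.BQ.AB X M χ
  · obtain ⟨hc1, hc2⟩ := hc
    have hW1 : (U ⊔ Pool.Agent.BQ.AI X M χ) ⊓ Subgroup.zpowers s ≤ Subgroup.zpowers s := inf_le_right
    have hW2 : (U ⊔ Pool.Agent.BQ.AI X M χ) ⊓ Subgroup.zpowers s ≤ U ⊔ Pool.Agent.BQ.AI X M χ := inf_le_left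
    have hW3 : U ⊔ Pool.Agent.BQ.AI X M χ ≤
        ((U ⊔ Pool.Agent.BQ.AI X M χ) ⊓ Subgroup.zpowers s) ⊔ Pool.Agent.BQ.AI X M χ := by
      intro a ha
      obtain ⟨k, hk⟩ := hgen a ((sup_le hc2 hc1) ha)
      have h1 : s ^ k ∈ (U ⊔ Pool.Agent.BQ.AI X M χ) ⊓ Subgroup.zpowers s := by
        refine ⟨?_, Subgroup.zpow_mem_zpowers s k⟩
        have h2 := Subgroup.mul_mem _ ((le_sup_right : Pool.Agent.BQ.AI X M χ ≤
          U ⊔ Pool.Agent.BQ.AI X M χ) hk) (Subgroup.inv_mem _ ha)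
        rwa [mul_inv_cancel_right] at h2
      have h3 := Subgroup.mul_mem _ ((le_sup_left : _ ≤ ((U ⊔ Pool.Agent.BQ.AI X M χ) ⊓
        Subgroup.zpowers s) ⊔ Pool.Agent.BQ.AI X M χ) (Subgroup.inv_mem _ h1))
        ((le_sup_right : Pool.Agent.BQ.AI X M χ ≤ ((U ⊔ Pool.Agent.BQ.AI X M χ) ⊓
        Subgroup.zpowers s) ⊔ Pool.Agent.BQ.AI X M χ) hk)
      rwa [inv_mul_cancel_left] at h3
    generalize (U ⊔ Pool.Agent.BQ.AI X M χ) ⊓ Subgroup.zpowers s = W at hW1 hW2 hW3
    have h8 : f (fun d => altSum (resE X W) p M χ d ⊤) = 0 := by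
      have hcyc : IsCyclic W := by
        have h1 : IsCyclic (Subgroup.zpowers s) := inferInstance
        exact isCyclic_of_injective (Subgroup.inclusion hW1) (Subgroup.inclusion_injective hW1)
      have hcard : ¬ p ∣ Nat.card W := by
        intro h
        apply hps
        rw [← Nat.card_zpowers]
        exact h.trans (Subgroup.card_dvd_of_le hW1)
      exact XD8 hS hf hP hmain G hO χ hχ D x hD hPD (W.comap X.proj) W (resE X W) hcyc hcard
    rw [← hsup W] at h8
    rw [← h8, finsum_subtype_eq_finsum_cond (f := fun V => f (fun d => altSum X p M χ d V)) (fun V => U ≤ V),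
      finsum_subtype_eq_finsum_cond (f := fun V => f (fun d => altSum X p M χ d V)) (fun V => W ≤ V)]
    refine finsum_congr fun V => ?_
    by_cases hV : Pool.Agent.BQ.AI X M χ ≤ V
    · have h1 : (U ≤ V) = (W ≤ V) := by
        apply propext
        constructor
        · intro h
          exact hW2.trans (sup_le h hV)
        · intro h
          exact le_sup_left.trans (hW3.trans (sup_le h hV))
      rw [h1]
    · rw [hz V fun h => hV h.1]
      simp
  · have h1 : ∀ V : {V : Subgroup A // U ≤ V}, f (fun d => altSum X p M χ d V.1) = 0 := by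
      rintro ⟨V, hV⟩
      refine hz V ?_
      rintro ⟨h2, h3⟩
      exact hc ⟨h2.trans h3, hV.trans h3⟩
    simp only [h1]
    exact finsum_zero

/-! ## The statement in terms of defect groups -/

theorem nonVan_iff {p : ℕ} {M : Ideal (integralClosure ℤ ℂ)} (hS : Setup p M) {G : Type} [Group G] [Finite G] {χ : G → ℂ}
    (hχ : χ ∈ Irr G) (w : G) : Pool.Agent.MAP.NonVan M χ w ↔ ¬ InM M (omega χ w) := by
  have hom : ∀ y : G, omega χ y = cc χ (cls ⊤ y) := fun y => (Pool.Agent.FI.AllA.dCLS G ⊤ y).2.2.2.2.2.2.2.1 χ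
  have hint : ∀ y : G, IsIntegral ℤ (cc χ (cls ⊤ y)) := fun y =>
    (Pool.Agent.FI.AllA.dCLS G ⊤ y).2.2.2.2.2.2.2.2 ⊤ le_rfl χ (by rw [(Pool.Agent.FI.AllA.dTPR p M hS G).1]; exact hχ)
  constructor
  · intro h h1
    rw [hom] at h1
    have h2 : InM M (((⟨cc χ (cls ⊤ w), hint w⟩ : integralClosure ℤ ℂ)) : ℂ) := h1
    exact h _ (InM.mem hS h2) (hom w)
  · intro h a ha h1
    apply h
    rw [h1]
    exact InM.coe hS ha

theorem pp_card {p : ℕ} (hp : p.Prime) {G : Type} [Group G] [Finite G] {D C : Subgroup G}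
    (hDC : D ≤ C) (hD : IsPGroup p D) : Nat.card D ≤ pp p C ∧
      (¬ p ∣ D.relIndex C ↔ Nat.card D = pp p C) := by
  have : Fact p.Prime := ⟨hp⟩
  obtain ⟨k, hk⟩ := IsPGroup.iff_card.1 hD
  have h1 : Nat.card D * D.relIndex C = Nat.card C := by
    have h2 := Subgroup.relIndex_mul_relIndex (⊥ : Subgroup G) D C bot_le hDC
    rw [Subgroup.relIndex_bot_left, Subgroup.relIndex_bot_left] at h2
    exact h2
  have hC0 : Nat.card C ≠ 0 := Nat.card_pos.ne'
  have hr0 : D.relIndex C ≠ 0 := by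
    intro h
    rw [h, mul_zero] at h1
    exact hC0 h1.symm
  have h3 : padicValNat p (Nat.card C) = k + padicValNat p (D.relIndex C) := by
    rw [← h1, hk, padicValNat.mul (pow_ne_zero _ hp.ne_zero) hr0, padicValNat.prime_pow]
  unfold pp
  rw [hk, h3]
  refine ⟨Nat.pow_le_pow_right hp.pos (Nat.le_add_right _ _), ?_, ?_⟩
  · intro h
    rw [padicValNat.eq_zero_of_not_dvd h, add_zero]
  · intro h hd
    have h4 : padicValNat p (D.relIndex C) = 0 := by
      have h5 := Nat.pow_right_injective hp.two_le h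
      omega
    rcases (padicValNat.eq_zero_iff.1 h4) with h6 | h6 | h6
    · exact hp.one_lt.ne' h6
    · exact hr0 h6
    · exact h6 hd

theorem defAt_of {p : ℕ} {M : Ideal (integralClosure ℤ ℂ)} (hS : Setup p M) {G : Type} [Group G] [Finite G] {χ : G → ℂ}
    (hχ : χ ∈ Irr G) {D : Subgroup G} (hD : Pool.Agent.MAP.DefectGroup p M χ D) : ∃ x, DefAt p M χ D x := by
  obtain ⟨x, h1, h2, h3, h4, h5, h6⟩ := hD
  refine ⟨x, h1, (nonVan_iff hS hχ x).1 h2, h3, h4, (pp_card hS.pr h3 h4).2.1 h5, fun y hy => ?_⟩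
  obtain ⟨Q, h7, h8, h9⟩ := h6 y ((nonVan_iff hS hχ y).2 hy)
  exact h9.trans (pp_card hS.pr h7 h8).1

theorem of_defAt {p : ℕ} {M : Ideal (integralClosure ℤ ℂ)} (hS : Setup p M) {G : Type} [Group G] [Finite G] {χ : G → ℂ}
    (hχ : χ ∈ Irr G) {D : Subgroup G} {x : G} (hD : DefAt p M χ D x) : Pool.Agent.MAP.DefectGroup p M χ D := by
  have : Fact p.Prime := ⟨hS.pr⟩
  refine ⟨x, hD.reg, (nonVan_iff hS hχ x).2 hD.ne, hD.le, hD.pgrp, (pp_card hS.pr hD.le hD.pgrp).2.2 hD.card, fun y hy => ?_⟩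
  obtain ⟨Q, -, hQ1, hQ2, hQ3⟩ := (Pool.Agent.FI.AllA.dSYL p G).2.1 ⊥ (Subgroup.centralizer ({y} : Set G)) IsPGroup.of_bot bot_le
  refine ⟨Q, hQ1, hQ2, ?_⟩
  rw [hQ3]
  exact hD.min y ((nonVan_iff hS hχ y).1 hy)

/-- Reduction of the order of `s` modulo the subgroup. -/
theorem red_order {A : Type} [Group A] [Finite A] (s : A) (n : ℕ) (hn : 0 < n) :
    ∃ m j : ℕ, m = n * j + 1 ∧ ∀ l : ℕ, l.Prime → l ∣ orderOf (s ^ m) → l ∣ n := by
  have ho : 0 < orderOf s := orderOf_pos s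
  obtain ⟨n₁, n₂, e, hc, hp⟩ := Pool.Agent.L5.PRO5_split n (orderOf s) ho
  have hn₂ : 0 < n₂ := by
    rcases Nat.eq_zero_or_pos n₂ with h | h
    · rw [h, mul_zero] at e
      omega
    · exact h
  have hk : 1 ≤ n₂ ^ n.totient := Nat.one_le_iff_ne_zero.2 (pow_ne_zero _ hn₂.ne')
  have h1 : n ∣ n₂ ^ n.totient - 1 := (Nat.modEq_iff_dvd' hk).1 (Nat.ModEq.pow_totient hc).symm
  obtain ⟨j, hj⟩ := h1
  refine ⟨n₂ ^ n.totient, j, by omega, fun l hl h => ?_⟩
  refine hp l hl (h.trans (orderOf_dvd_of_pow_eq_one ?_))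
  obtain ⟨r, hr⟩ := dvd_pow_self n₂ (Nat.totient_pos.2 hn).ne'
  rw [← pow_mul, hr]
  have h3 : n₂ * r * n₁ = orderOf s * r := by
    rw [e]
    ring
  rw [h3, pow_mul, pow_orderOf_eq_one, one_pow]

theorem red_cyc {A : Type} [Group A] (N : Subgroup A) (s : A) (n j m : ℕ) (hs : s ^ n ∈ N) (hm : m = n * j + 1) (a : A)
    (ha : ∃ k : ℤ, s ^ k * a ∈ N) : ∃ k : ℤ, (s ^ m) ^ k * a ∈ N := by
  obtain ⟨k, hk⟩ := ha
  refine ⟨k, ?_⟩
  have h1 : (s ^ m) ^ k = (s ^ n) ^ ((j : ℤ) * k) * s ^ k := by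
    rw [hm, ← zpow_natCast, ← zpow_natCast, ← zpow_mul, ← zpow_mul, ← zpow_add]
    congr 1
    push_cast
    ring
  rw [h1, mul_assoc]
  exact N.mul_mem (N.zpow_mem hs _) hk

/-- FROM `E = G` TO EXTENSIONS with `E_B / E[B]` a quotient of a cyclic group of order `n` prime to `p`. For one `d`: `f a = a d`
(`Fun_eval d`). For the sum over `d`: `f a = ∑ᶠ d, a d` (`Fun_sum`). -/
theorem main {p : ℕ} {M : Ideal (integralClosure ℤ ℂ)} (hS : Setup p M) {f : (ℤ → ℤ) → ℤ} (hf : Fun f)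
    {P : (G : Type) → [Group G] → Subgroup G → Prop} (hP : Her P)
    (hmain : ∀ (G : Type) [Group G] [Finite G], IsOp p (⊤ : Subgroup G) ⊥ → ∀ χ ∈ Irr G, ∀ D : Subgroup G,
      Pool.Agent.MAP.DefectGroup p M χ D → P G D → f (fun d => altSum (trivE G) p M χ d ⊤) = 0)
    (G : Type) [Group G] [Finite G] (hO : IsOp p (⊤ : Subgroup G) ⊥) (χ : G → ℂ) (hχ : χ ∈ Irr G) (D : Subgroup G)
    (hD : Pool.Agent.MAP.DefectGroup p M χ D) (hPD : P G D) (E A : Type) [Group E] [Group A] [Finite E] (X : Extension G E A)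
    (s : A) (n : ℕ) (hsn : s ^ n ∈ Pool.Agent.BQ.AI X M χ) (hpn : ¬ p ∣ n)
    (hs : ∀ a ∈ Pool.Agent.BQ.AB X M χ, ∃ k : ℤ, s ^ k * a ∈ Pool.Agent.BQ.AI X M χ) (U : Subgroup A) :
    f (fun d => altSum X p M χ d U) = 0 := by
  have hn : 0 < n := by
    rcases Nat.eq_zero_or_pos n with h | h
    · exact absurd (h ▸ dvd_zero p) hpn
    · exact h
  have hfA : Finite A := Finite.of_surjective X.proj X.proj_surjective
  obtain ⟨m, j, hm, hmp⟩ := red_order s n hn
  obtain ⟨x, hx⟩ := defAt_of hS hχ hD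
  refine XD9 hS hf hP ?_ G hO χ hχ D x hx hPD E A X (s ^ m) (fun h => hpn (hmp p hS.pr h))
    (fun a ha => red_cyc _ s n j m hsn hm a (hs a ha)) U
  intro G' _ _ hO' χ' hχ' D' x' hx' hP'
  exact hmain G' hO' χ' hχ' D' (of_defAt hS hχ' hx') hP'

end Pool.Agent.XD
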