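import Mathlib

/-!
# MP_baa4d7_al, THEOREM ND, block C: coherence and counting (PURE combinatorics of integer vectors)

RULES FOR ROWS. File `Pool/Agent/<seat>/ND/XXX.lean` with

  import Pool.Agent.helper37.ND.SpecC
  set_option autoImplicit false
  namespace Pool.Agent.ND
  theorem XXX (hYYY : YYY_stmt) ... : XXX_stmt := ...
  end Pool.Agent.ND

auxiliary lemmas prefixed `XXX_`, no sorry, no double quotes in the file, no `convert`, no `congr!`. The rows named in the docstring are hypotheses.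
-/

set_option autoImplicit false

namespace Pool.Agent.ND

open Classical in
/-- **KCH** (medium; pure). COHERENCE. Vectors `v j ∈ ℤ^Ψ`, in blocks `f j = i`, with scalar products `s i + [j = k]` in the block `i` and `0` between different blocks, of degree `0` (`w > 0`), `t_i = |block i| ≥ s i' + 3` for all `i, i'`. Then `v j = Y_i - ε_i e_(a j)`, `a` injective, the `Y_i` vanish at all `a j`, `(Y_i, Y_i') = s i [i = i']`.
PROOF. (1) One block `i` (`t ≥ 4` vectors). For `j ≠ k` the vector `v j - v k` has norm `2` and `∑ w ψ * (v j - v k) ψ = 0`, so it is `e_b - e_c` with `b ≠ c` (two entries `± 1`, of opposite signs as `w > 0`). Fix `j₀`, `v j - v j₀ = e_(b j) - e_(c j)` for `j ≠ j₀`; for `j ≠ k` (both `≠ j₀`) the product of these is `1`: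
`[b j = b k] + [c j = c k] - [b j = c k] - [c j = b k] = 1`, so exactly one of `b j = b k`, `c j = c k` holds (if both then the product is `2`). If `b j = b k` and `c k = c l` (`j, k, l` distinct) then `b j = b l` gives `v k = v l`-contradiction (`b k = b l` and `c k = c l`), and `c j = c l` gives `c j = c k`, a contradiction. So all `b j` are equal, or all `c j` are equal
(there are `≥ 3` indices `j ≠ j₀`). First case, `b j = b`: `ε = 1`, `a j₀ = b`, `a j = c j`, `Y = v j₀ + e_b`. Second case, `c j = c`: `ε = -1`, `a j₀ = c`, `a j = b j`, `Y = v j₀ - e_c`. In both cases `v j = Y - ε e_(a j)` for all `j` of the block, `a` is injective on the block.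
(2) `s + 1 = |v j|² = |Y|² - 2 ε Y(a j) + 1`, so `Y(a j) = y` is the same for all `j`, `|Y|² = s + 2 ε y`; and `t y² ≤ |Y|²` (the `a j` are distinct), so `(s + 3) y² ≤ s + 2 |y| ≤ s + 2 y²`, `(s + 1) y² ≤ s`, `y = 0`, `|Y|² = s`. (3) Blocks `i ≠ i'`, `Y, ε, a` and `Y', ε', a'`: `0 = (v j, v' k) = (Y, Y') - ε' Y(a' k) - ε Y'(a j) + ε ε' [a j = a' k]`.
At most `|Y|² = s i` indices `k` have `Y(a' k) ≠ 0`, so at least three `k` have `Y(a' k) = 0`; in the same way at least three `j` have `Y'(a j) = 0`. Choose such `j`, `k` with `a j ≠ a' k` (for given `j` at most one `k` is excluded): `(Y, Y') = 0`. For any `k` choose `j` with `Y'(a j) = 0`, `a j ≠ a' k`: `Y(a' k) = 0`; in the same way `Y'(a j) = 0` for all `j`. Then `[a j = a' k] = 0` for all `j, k`. -/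
def KCH_stmt : Prop :=
  ∀ (Ψ I J : Type) [Finite Ψ] [Finite I] [Finite J] (f : J → I) (s : I → ℤ) (v : J → Ψ → ℤ) (w : Ψ → ℤ),
    (∀ ψ, 0 < w ψ) → (∀ i, 1 ≤ s i) → (∀ j, ∑ᶠ ψ, w ψ * v j ψ = 0) →
    (∀ j k, ∑ᶠ ψ, v j ψ * v k ψ = if f j = f k then s (f j) + (if j = k then 1 else 0) else 0) →
    (∀ i i', s i' + 3 ≤ (Nat.card {j // f j = i} : ℤ)) →
    ∃ (Y : I → Ψ → ℤ) (ε : I → ℤ) (a : J → Ψ), (∀ i, ε i = 1 ∨ ε i = -1) ∧ Function.Injective a ∧
      (∀ j ψ, v j ψ = Y (f j) ψ - ε (f j) * (if ψ = a j then 1 else 0)) ∧ (∀ i j, Y i (a j) = 0) ∧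
      ∀ i i', ∑ᶠ ψ, Y i ψ * Y i' ψ = if i = i' then s i else 0

open Classical in
/-- A system of integer functions `D ψ` on the pairs `r x y`, `A` acts on `X` by `act`, `K ≤ A` acts trivially. -/
structure Sys {X A Ψ : Type} [Group A] (K : Subgroup A) (act : A → X → X) (r : X → X → Prop) (w : Ψ → ℤ) (D : Ψ → X → X → ℤ) : Prop where
  wp : ∀ ψ, 0 < w ψ
  ad : ∀ ψ x y z, r x y → r y z → D ψ x y + D ψ y z = D ψ x z
  eq : ∀ ψ t x y, r x y → D ψ (act t x) (act t y) = D ψ x y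
  nr : ∀ ψ x y, ¬ r x y → D ψ x y = 0
  dg : ∀ x y, r x y → ∑ᶠ ψ, w ψ * D ψ x y = 0
  gr : ∀ x x' y y', r x x' → r y y' → (Nat.card K : ℤ) * ∑ᶠ ψ, D ψ x x' * D ψ y y' = ∑ᶠ t : A,
    ((if act t y = x then (1 : ℤ) else 0) - (if act t y = x' then 1 else 0) - (if act t y' = x then 1 else 0) + (if act t y' = x' then 1 else 0))

/-- The hypotheses on the action: `r` an equivalence relation which is preserved; every class has a point fixed by its stabiliser `{t | r x (act t x)}`, which acts freely (modulo `K`) on the other points of the class; the stabiliser has at most `b |K|` elements and the class more than `b (b + 3)`. -/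
structure Acn {X A : Type} [Group A] (K : Subgroup A) (act : A → X → X) (r : X → X → Prop) (b : ℕ) : Prop where
  one : ∀ x, act 1 x = x
  mul : ∀ s t x, act (s * t) x = act s (act t x)
  triv : ∀ k ∈ K, ∀ x, act k x = x
  eqv : Equivalence r
  pres : ∀ t x y, r x y → r (act t x) (act t y)
  fix : ∀ x, ∃ y, r x y ∧ (∀ t, r x (act t x) → act t y = y) ∧ ∀ t y', r x y' → y' ≠ y → act t y' = y' → t ∈ K
  st : ∀ x, Nat.card {t : A // r x (act t x)} ≤ b * Nat.card K
  sz : ∀ x, b * (b + 3) + 1 ≤ Nat.card {y : X // r x y}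

/-- **KCO** (medium to long; from KCH; pure). COUNTING. NOTATION: `x ≈ y` if `∃ t, r (act t x) y` (an equivalence relation), `I` the quotient type; for `i ∈ I` let `θ i ∈ X` be a point of the class `i` as in `Acn.fix` (for the class of `Quotient.out i`); `A_i = {t | r (θ i) (act t (θ i))} = {t | act t (θ i) = θ i}` (a subgroup containing `K`), `s i = |A_i| / |K| ≤ b` (`|K|` divides `|A_i|`: Lagrange), `1 ≤ s i`.
`O_i = {y | r (θ i) y, y ≠ θ i}`, on which `A_i` acts with the stabilisers `K`; `J` the set of the pairs `(i, A_i`-orbit in `O_i)`, `f` the first component. `|{j | f j = i}| s i = |O_i| ≥ b (b + 3)`, so `|{j | f j = i}| ≥ b + 3 ≥ s i' + 3`. `v (i, [y]) ψ = D ψ (θ i) y` (well defined: `D ψ (θ i) (act t y) = D ψ (act t (θ i)) (act t y) = D ψ (θ i) y` for `t ∈ A_i`).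
GRAM: `gr` for `x = θ i`, `x' = y`, and `θ i'`, `y'`: if `i ≠ i'` no `t` maps an element of the class of `θ i'` to one of the class of `θ i`: `0`. If `i = i'`: `act t (θ i) = θ i` for the `|A_i|` elements `t ∈ A_i`; `act t (θ i) = y` and `act t y' = θ i` are impossible (`t ∈ A_i` fixes `θ i`); `act t y' = y` for `|K|` elements if `[y'] = [y]` (free action), for none otherwise. So `|K| (v, v') = |K| (s i + [j = k])`.
KCH: `Y, ε, a`. (1) If `ψ = a j`, `j = (i, [y])`, then `D ψ = - ε i • T j`, otherwise `D ψ = ∑_i Y_i ψ • T' i`, where the functions `T j`, `T' i : X → X → ℤ` depend only on `X, A, K, act, r`: for `r x x'`, `x` in the class `i`, `r (act t x) (θ i)`: `T' i x x' = [act t x' ≠ θ i] - [act t x ≠ θ i]`, `T j x x' = [act t x' ∈ [y]] - [act t x ∈ [y]]`; `0` if not `r x x'` or `x` is not in the class `i`.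
(`D ψ x x' = D ψ (act t x) (act t x') = D ψ (θ i) (act t x') - D ψ (θ i) (act t x)` by `eq`, `ad`, and `D ψ (θ i) (θ i) = 0`.) (2) `nv`: `ψ` not in the image of `a` has `Y_i ψ ≠ 0` for some `i`. `∑_i (Y_i, Y_i) = ∑_i s i`, so `|Ψ| ≤ Φ = ∑_i s i + |J|`. (3) If `q1` and `q2` then for `ψ` not in the image of `a` all `|Y_i ψ| ≤ 1` (`Y_i ψ = D ψ (θ i) y` for any `y ∈ O_i`) and only one `Y_i ψ` is not `0`
(by `q2`: `Y_i ψ ≠ 0 ≠ Y_i' ψ` gives `θ i ≈ θ i'`): so `∑_i Y_i(ψ)² = 1` and `|Ψ| = Φ`. (4) If `|Ψ| = Φ` then `∑_(ψ ∉ im a) (∑_i Y_i(ψ)² - 1) = 0` with nonnegative summands, so for every `ψ ∉ im a` exactly one `Y_i ψ` is `± 1` and the others are `0`, `D ψ = ± T' i`, and for every `i` there are `s i` such `ψ`. So for a predicate `P` with `P (-R) ↔ P R` the number of the `ψ` with `P (D ψ)` is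
`κ P = |{j | P (T j)}| + ∑_i s i [P (T' i)]`. -/
def KCO_stmt : Prop :=
  ∀ (X A : Type) [Finite X] [Group A] [Finite A] (K : Subgroup A) (act : A → X → X) (r : X → X → Prop) (b : ℕ), Acn K act r b →
    ∃ (Φ : ℕ) (κ : ((X → X → ℤ) → Prop) → ℕ), ∀ (Ψ : Type) [Finite Ψ] (w : Ψ → ℤ) (D : Ψ → X → X → ℤ), Sys K act r w D →
      (∀ ψ, ∃ x y, D ψ x y ≠ 0) →
      Nat.card Ψ ≤ Φ ∧
      ((∀ ψ x y, |D ψ x y| ≤ 1) → (∀ ψ x y x' y', D ψ x y ≠ 0 → D ψ x' y' ≠ 0 → ∃ t, r (act t x) x') → Nat.card Ψ = Φ) ∧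
      (Nat.card Ψ = Φ → ∀ P : (X → X → ℤ) → Prop, (∀ R, P (-R) ↔ P R) → Nat.card {ψ // P (D ψ)} = κ P)

open Classical in
/-- **KC1** (medium; from KCH; pure). The case of trivial stabilisers: `r x (act t x)` implies `t ∈ K`. The notation of KCO; `θ i` any point of the class `i`, `s i = 1`, `J` the pairs `(i, y)`, `r (θ i) y`, `y ≠ θ i` (at least `4` for every `i`). KCH: `v (i, y) ψ = D ψ (θ i) y = Y_i ψ - ε i [ψ = a (i, y)]`, `∑_ψ Y_i(ψ)² = 1`, so `Y_i = δ i e_(c i)`, `δ i = ± 1`, and by `dg` `δ i w (c i) = ε i w (a j)`, so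
`δ i = ε i` (`w > 0`). `c i ≠ a j` (`Y_i (a j) = 0`), and `c i ≠ c i'` for `i ≠ i'` (`(Y_i, Y_i') = 0`). For `x ∈ X` in the class `i` choose `t` with `r (act t x) (θ i)`, put `y = act t x` (independent of `t`: if `r (act t' x) (θ i)` then `t' t⁻¹` stabilises the class of `θ i`, so is in `K`); `ξ x = c i` if `y = θ i` and `ξ x = a (i, y)` otherwise, `ε x = ε i`.
For `r x x'`: `D ψ x x' = D ψ y y' = D ψ (θ i) y' - D ψ (θ i) y = ε i ([ψ = ξ x] - [ψ = ξ x'])`. If `ξ x = ξ x''` then `i = i''` and `y = y''`: `act t x = act t'' x''`. -/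
def KC1_stmt : Prop :=
  ∀ (X A : Type) [Finite X] [Group A] [Finite A] (K : Subgroup A) (act : A → X → X) (r : X → X → Prop) (b : ℕ), Acn K act r b → 1 ≤ b →
    (∀ x t, r x (act t x) → t ∈ K) → ∀ (Ψ : Type) [Finite Ψ] (w : Ψ → ℤ) (D : Ψ → X → X → ℤ), Sys K act r w D →
    ∃ (ξ : X → Ψ) (ε : X → ℤ), (∀ x, ε x = 1 ∨ ε x = -1) ∧
      (∀ ψ x y, r x y → D ψ x y = ε x * ((if ψ = ξ x then 1 else 0) - (if ψ = ξ y then 1 else 0))) ∧
      ∀ x y, ξ x = ξ y → ∃ t, y = act t x

end Pool.Agent.ND
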