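import Mathlib
import Pool.Agent.helper83.GR.Spec

/-!
# MP_baa4d7_al, THEOREM ND (and BROUE-PUIG of helper12), block P: local integrality and the permutation lemma

RULES FOR ROWS. File `Pool/Agent/<seat>/ND/XXX.lean` with

  import Pool.Agent.helper37.ND.SpecP
  set_option autoImplicit false
  namespace Pool.Agent.ND
  open Pool.Agent.helper58.DC Pool.Agent.DI Pool.Agent.GR
  theorem XXX (hYYY : YYY_stmt) ... : XXX_stmt := ...
  end Pool.Agent.ND

auxiliary lemmas prefixed `XXX_`, no sorry, no double quotes in the file, no `convert`, no `congr!`. The rows named in the docstring are hypotheses; all rows of `helper83/GR/Spec` (ORB VAL PRD PPT IDM EIN SFC CVF ..) and of `helper81/DI/SpecA..C` (B2 ..) may be added as further hypotheses (no circles).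
Lemmas on `IntAt`, `InM`, `Small`: `Pool/Agent/helper83/GR/Ari.lean`.
-/

set_option autoImplicit false

namespace Pool.Agent.ND

open Pool.Agent.helper58.DC Pool.Agent.DI Pool.Agent.GR

/-- **BLA** (short; pure). Sum over orbits. Proof: the sum over one orbit of the (constant) numbers `|Stab x| w x` is `|Γ| w x` (orbit and stabiliser: `MulAction.card_orbit_mul_card_stabilizer_eq_card_group`; the stabilisers of the points of an orbit have the same order). So the left side is the sum of `w` over representatives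
of the orbits (`MulAction.orbitRel.Quotient`, `Quotient.out`; `Finset.sum_fiberwise` for the map `X → orbits`), `IntAt` by `IntAt.sum`. -/
def BLA_stmt : Prop :=
  ∀ (p : ℕ) (M : Ideal (integralClosure ℤ ℂ)), Setup p M → ∀ (Γ X : Type) [Group Γ] [Finite Γ] [Finite X] [MulAction Γ X] (w : X → ℂ),
    (∀ (g : Γ) (x : X), w (g • x) = w x) → (∀ x, IntAt M (w x)) →
    IntAt M ((Nat.card Γ : ℂ)⁻¹ * ∑ᶠ x : X, (Nat.card (MulAction.stabilizer Γ x) : ℂ) * w x)

/-- **BLB** (medium; from BLA, ORB or a direct count). The sum over the `p`-elements. Proof: let `P` be a Sylow `p`-subgroup of `Γ`, `X = Γ ⧸ P`, `n u` the number of the fixed points of `u` on `X`. For a `p`-element `u` `n u` is prime to `p` (`n u ≡ |X|` modulo `p`: `IsPGroup.card_modEq_card_fixedPoints` for `zpowers u`; `|X|` prime to `p`).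
Take `r` with `p ^ N * |Γ|` dividing `p ^ (r + 1)` times a number prime to `p` (i.e. `N + v_p |Γ| ≤ r + 1`), `K = (p - 1) * p ^ r = φ(p ^ (r + 1)) ≥ 1`: `n u ^ K ≡ 1` modulo `p ^ (r + 1)` (`Nat.ModEq.pow_totient`). So `|Γ|⁻¹ * ∑_{u PEl} f u * (n u ^ K - 1)` is `IntAt` (`f u = p ^ (-N) * IntAt`). And `n u ^ K` is the number of the `τ : Fin K → X` fixed by `u`, so
`∑_{u PEl} f u * n u ^ K = ∑_τ ∑_{u ∈ Stab τ} f u`: the stabiliser `Q_τ` of `τ` (`MulAction Γ (Fin K → X)`) is a subgroup of the stabiliser `c P c⁻¹` of the coset `τ 0 = c P`, so a `p`-group, and all its elements are `p`-elements. `w τ = |Q_τ|⁻¹ * ∑_{u ∈ Q_τ} f u` is `IntAt` and invariant (`Q_{gτ} = g Q_τ g⁻¹`, `f` is a class function). BLA for `Γ` on `Fin K → X`. -/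
def BLB_stmt : Prop :=
  ∀ (p : ℕ) (M : Ideal (integralClosure ℤ ℂ)), Setup p M → ∀ (Γ : Type) [Group Γ] [Finite Γ] (f : Γ → ℂ) (N : ℕ),
    (∀ g h : Γ, f (h * g * h⁻¹) = f g) → (∀ g, IntAt M ((p : ℂ) ^ N * f g)) →
    (∀ Q : Subgroup Γ, IsPGroup p Q → IntAt M ((Nat.card Q : ℂ)⁻¹ * ∑ᶠ u ∈ (Q : Set Γ), f u)) →
    IntAt M ((Nat.card Γ : ℂ)⁻¹ * ∑ᶠ u ∈ {u : Γ | PEl p u}, f u)

/-- **BLI** (short to medium; from BLA, BLB, PPT). BRAUER'S LOCAL INTEGRALITY. Proof: `∑_g Φ g = ∑_{y p-regular} F y`, `F y = ∑_{u ∈ C(y), PEl} Φ (u * y)` (PPT for `H = ⊤`, exchange the two finite sums; `y ∈ Cz ⊤ u ↔ u ∈ Cz ⊤ y`). BLB for the type `Subgroup.centralizer {y}` and `f u = Φ (u * y)` (class function on `C(y)`; the `p`-subgroups of the type `C(y)`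
are mapped to `p`-subgroups of `Γ` which commute with `y`): `|C(y)|⁻¹ * F y` is `IntAt`. BLA for the conjugation action of `Γ` on the set `X` of the `p`-regular elements (`ConjAct` or a direct `MulAction`; the stabiliser of `y` is `C(y)`), `w y = |C(y)|⁻¹ * F y` (`F` is a class function). -/
def BLI_stmt : Prop :=
  ∀ (p : ℕ) (M : Ideal (integralClosure ℤ ℂ)), Setup p M → ∀ (Γ : Type) [Group Γ] [Finite Γ] (Φ : Γ → ℂ) (N : ℕ),
    (∀ g h : Γ, Φ (h * g * h⁻¹) = Φ g) → (∀ g, IntAt M ((p : ℂ) ^ N * Φ g)) →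
    (∀ y : Γ, PReg p y → ∀ Q : Subgroup Γ, IsPGroup p Q → (∀ u ∈ Q, u * y = y * u) →
      IntAt M ((Nat.card Q : ℂ)⁻¹ * ∑ᶠ u ∈ (Q : Set Γ), Φ (u * y))) →
    IntAt M ((Nat.card Γ : ℂ)⁻¹ * ∑ᶠ g : Γ, Φ g)

/-- **PMS** (medium; from BLA, ORB, PRD; MODEL `Pool/Agent/helper79/GR/KEY.lean`, which has all lemmas on paths: `KEY_ext`, `KEY_shift`, `KEY_trace`, `KEY_wR`). THE PERMUTATION LEMMA. Proof: `T` the finite set of the entries `ε x y` which are `InM`, `v = v_p |P|`, `r = N + v`, `N'` from PRD for `T` and `r`, `l ≥ r`, `m = p ^ l ≥ N'`. For `a ∈ P` let `π_a x = a • τ x` (a permutation).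
By `KEY_trace` `∑_x ε x (π_a x) = ∑_c w_a c`, over all `c : Fin m → X`, extended by `c (i + m) = π_a (c i)`, `w_a c = ∏_{i < m} ε (c i) (c (i + 1))`. ORB for the set of the pairs `(a, c)`, the permutation `R' (a, c) = (a, R_a ^ n₀ c)` (`R_a` the shift; its `p ^ (l + k)`-th power is the identity if `|P| = p ^ k`: `R_a ^ (m j) = π_a ^ j`, `π_a ^ (n₀ p ^ k) = 1` as `a`, `τ` commute) and the weight
`p ^ N * f a * w_a c` (`IntAt`): up to `Small (r + 1)` the sum `p ^ N * ∑_a f a ∑_x ε x (π_a x)` is the sum over the pairs with `c (i + n₀ p ^ r) = c i`. For those (as in KEY) `π_a ^ n₀ (c i) = c i`, `π_a ^ n₀ = a ^ n₀ τ ^ n₀ = a ^ n₀`, so `a (c i) = c i` for all `i` (`n₀` prime to `p`), `a ∈ Q_c` (the common stabiliser of the `c i`, `i < m`), and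
`c (i + m) = τ (c i)`. Conversely if `c` is extended by `τ`, satisfies `c (i + n₀ p ^ r) = c i`, and `a ∈ Q_c`, then `(a, c)` is such a pair, with the same weight `w c`. So the sum is `p ^ N * ∑_{c} w c * ∑_{a ∈ Q_c} f a`, over the finite set `Y` of the `c` with `c (i + n₀ p ^ r) = c i` (extension by `τ`), on which `P` acts (`(a • c) i = a • c i`), `Q_c` is the stabiliser.
`w c * |Q_c|⁻¹ * ∑_{a ∈ Q_c} f a` is `IntAt`: if some `ε (c i) (c (i + 1))` is not `InM`, by hypothesis (`c i`, `c (i + 1)` are fixed by `Q_c`); otherwise `w c` is a product of `m ≥ N'` elements of `T`, `Small r`, and `|Q_c| * p ^ N` divides `p ^ r`. BLA for `P` on `Y`. Divide by `p ^ N |P|`. -/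
def PMS_stmt : Prop :=
  ∀ (p : ℕ) (M : Ideal (integralClosure ℤ ℂ)), Setup p M → ∀ (P X : Type) [Group P] [Finite P] [Fintype X] [MulAction P X], IsPGroup p P →
    ∀ (τ : Equiv.Perm X) (n₀ : ℕ), ¬ p ∣ n₀ → τ ^ n₀ = 1 → (∀ (a : P) (x : X), τ (a • x) = a • τ x) →
    ∀ ε : X → X → ℂ, (∀ x y, IntAt M (ε x y)) → (∀ x y, ∑ u, ε x u * ε u y = ε x y) →
    (∀ (a : P) (x y : X), ε (a • x) (a • y) = ε x y) → (∀ x y, ε (τ x) (τ y) = ε x y) →
    ∀ (f : P → ℂ) (N : ℕ), (∀ a, IntAt M ((p : ℂ) ^ N * f a)) → (∀ a b, f (b * a * b⁻¹) = f a) →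
    (∀ Q : Subgroup P, (∃ x y : X, (∀ a ∈ Q, a • x = x) ∧ (∀ a ∈ Q, a • y = y) ∧ ¬ InM M (ε x y)) →
      IntAt M ((Nat.card Q : ℂ)⁻¹ * ∑ᶠ a ∈ (Q : Set P), f a)) →
    IntAt M ((Nat.card P : ℂ)⁻¹ * ∑ᶠ a : P, f a * ∑ x, ε x (a • τ x))

/-- **KIP** (medium; from BLI, PMS, IDM, EIN, SFC). Integrality for the kernel of a union of blocks. Proof: BLI for the group `L × L` and `Φ (a, b) = f a b * Sf S a b` (class function: SFC; `Sf` is integral). Let `(y, y') ∈ L × L` be `p`-regular (then `y`, `y'` are: `Prod.orderOf`), `Q` a `p`-subgroup of `L × L` which commutes with it. For `(u, v) ∈ Q` IDM gives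
`Sf S (u y) (v y') = ∑_{z ∈ L} eS L S (z⁻¹ (u y)⁻¹ z (v y'))`. PMS for the group `Q`, `X = L`, `(u, v) • z = u z v⁻¹`, `τ z = y z y'⁻¹`, `n₀ = orderOf y * orderOf y'`, `ε z w = eS L S (w⁻¹ * z)`: idempotent because `cv e e = e` (substitute `t = w⁻¹ u`), invariant because `eS L S` is a class function of `L`; `ε z ((u, v) • τ z) = e (v y' z⁻¹ (u y)⁻¹ z) = e (z⁻¹ (u y)⁻¹ z (v y'))`.
The condition: `Q' ≤ Q` fixes `z`, `z'` and `ε z z' = e (z'⁻¹ z)` is not `InM`. Then `u = z v z⁻¹` for `(u, v) ∈ Q'`; `R = pr_2 Q'` (isomorphic to `Q'`), `w = z'⁻¹ z` commutes with `R`; `f (u y) (v y') = f (z (v * (z⁻¹ y z)) z⁻¹) (v y') = f (v * (z⁻¹ y z)) (v y')`, `z⁻¹ y z` is `p`-regular and commutes with `R`. So the mean over `Q'` is the mean over `R` in the hypothesis. -/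
def KIP_stmt : Prop :=
  ∀ (p : ℕ) (M : Ideal (integralClosure ℤ ℂ)), Setup p M → ∀ (G : Type) [Group G] [Finite G] (L : Subgroup G) (S : Set (G → ℂ)), BC M L S →
    ∀ (f : G → G → ℂ) (N : ℕ), (∀ a ∈ L, ∀ b ∈ L, IntAt M ((p : ℂ) ^ N * f a b)) →
    (∀ a ∈ L, ∀ b ∈ L, ∀ h ∈ L, f (h * a * h⁻¹) b = f a b ∧ f a (h * b * h⁻¹) = f a b) →
    (∀ R : Subgroup G, R ≤ L → IsPGroup p R → (∃ w ∈ L, (∀ v ∈ R, v * w = w * v) ∧ ¬ InM M (eS L S w)) →
      ∀ y ∈ L, ∀ y' ∈ L, PReg p y → PReg p y' → (∀ v ∈ R, v * y = y * v) → (∀ v ∈ R, v * y' = y' * v) →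
      IntAt M ((Nat.card R : ℂ)⁻¹ * ∑ᶠ v ∈ (R : Set G), f (v * y) (v * y'))) →
    IntAt M (((Nat.card L : ℂ) ^ 2)⁻¹ * ∑ᶠ a ∈ (L : Set G), ∑ᶠ b ∈ (L : Set G), f a b * Sf S a b)

/-- **AVG** (short to medium; pure, linear algebra). Means of a linear character times characters. Proof: let `ρ`, `σ` be representations of (the type) `L` with characters `κ`, `η`, as matrices. The matrices `U v = μ v • (ρ v⁻¹)ᵀ ⊗ₖ σ v`, `v ∈ R`, multiply as `R`, so `E = |R|⁻¹ ∑_v U v` satisfies `E * E = E`. `T = (ρ y⁻¹)ᵀ ⊗ₖ σ y'` commutes with all `U v` (`y`, `y'` commute with `R`),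
`T ^ k = 1` for `k = |L|`. The number is `trace (E * T)` (`(ρ ((v y)⁻¹))ᵀ = (ρ y⁻¹ * ρ v⁻¹)ᵀ`, and `y⁻¹`, `v⁻¹` commute; `Matrix.trace_kronecker`), and `A = E * T` satisfies `A ^ (k + 1) = A`. So every root `x` of the characteristic polynomial of `A` satisfies `x ^ (k + 1) = x` (eigenvector) and is integral, and the trace is the sum of the roots (`Matrix.trace_eq_sum_roots_charpoly`). -/
def AVG_stmt : Prop :=
  ∀ (G : Type) [Group G] [Finite G] (L R : Subgroup G), R ≤ L → ∀ μ : G → ℂ, (∀ u ∈ R, ∀ v ∈ R, μ (u * v) = μ u * μ v) → μ 1 = 1 →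
    ∀ κ ∈ IrrOn L, ∀ η ∈ IrrOn L, ∀ y ∈ L, ∀ y' ∈ L, (∀ v ∈ R, v * y = y * v) → (∀ v ∈ R, v * y' = y' * v) →
    IsIntegral ℤ ((Nat.card R : ℂ)⁻¹ * ∑ᶠ v ∈ (R : Set G), μ v * κ (v * y)⁻¹ * η (v * y'))

end Pool.Agent.ND
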