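import Mathlib
import Pool.Agent.helper37.NA.Spec2
import Pool.Agent.helper37.ND.SpecP
import Pool.Agent.helper37.ND.SpecC

/-!
# MP_baa4d7_al, THEOREM ND: Dade's conjecture FOR EVERY `d` (`E = G`) for blocks with a large central cyclic subgroup of the defect group (nonabelian defect groups allowed)

THEOREM. Unit class `z x` of the block (project NA: `Ucl p e m M ⊤ χ z x`), `2 m + 5 ≤ e`, `E = Eg p e z = Ω_1⟨z⟩`. If `l(B') = lE` for all subgroups (`MNc`, theorem NMP of NA) then for every `d` the number of characters of defect `d` of `B` is that of the block `BE` of `nz E`; so for `O_p(G) = 1` the alternating sum is `0` for every `d`.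

NOTATION. `Z = Zg p e m z = Ω_(m+3)⟨z⟩`, `C = cz Z`, `S = {g | Z ≤ zpowers g}`, `GS L = GS p e m M χ L Z` the characters `ψ` of `L` (`C ≤ L`) with `b(ψ)^G = B` and a unit class `z' x'` with `Zg z' = Z`; `X = GS C`. `ν : Z →* ℂˣ`, `lam Z t ν g = ν (g ^ t)` if `g ^ t ∈ Z`, `1` otherwise, where `g ^ t = u ^ (p ^ (e - 3))`, `u` the `p`-part of `g` (`Tx`).
`st Z t ν θ = lam ν * θ` (the *-construction: GST: it is an irreducible character in the same block if `θ ∈ X`), `orb Z t θ θ'`: same orbit. `D ψ θ θ' = mt C ψ θ - mt C ψ θ'` for `orb θ θ'`: integers. `ZD`: the standing hypothesis.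

RULES FOR ROWS. File `Pool/Agent/<seat>/ND/XXX.lean` with

  import Pool.Agent.helper37.ND.Spec
  set_option autoImplicit false
  namespace Pool.Agent.ND
  open Pool.Agent.helper58.DC Pool.Agent.DI Pool.Agent.GR Pool.Agent.OB Pool.Agent.DR Pool.Agent.FI Pool.Agent.FI3 Pool.Agent.FI4 Pool.Agent.FI4I Pool.Agent.LE Pool.Agent.L5 Pool.Agent.NAB
  theorem XXX (hYYY : YYY_stmt) ... : XXX_stmt := ...
  end Pool.Agent.ND

auxiliary lemmas prefixed `XXX_`, no sorry, no double quotes in the file, no `convert`, no `congr!`. The rows named in the docstring are hypotheses; all rows of `SpecP`, `SpecC`, of `helper37/NA/Spec`, `Spec2` (NEG NEC NUD NUH NUB NUE NUF NXU NQU NTG NTK ..) and of the earlier specs (GR, DI, DR, OB, FI, FI3, FI4, LE, L5: all proved; BRY EXB CNTL DEX DUN SYL CLS DCM SBI TRN CJG TPR STC in `helper22/FI/SpecA`;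
QEI in `helper70/FI/SpecQ1`, FEQ FBC FT0 FNO in `helper58/FI/SpecC`, QRS, ..) may be added as further hypotheses (no circles).
-/

set_option autoImplicit false

namespace Pool.Agent.ND

open Pool.Agent.helper58.DC Pool.Agent.DI Pool.Agent.GR Pool.Agent.OB Pool.Agent.DR Pool.Agent.FI Pool.Agent.FI3 Pool.Agent.FI4 Pool.Agent.FI4I Pool.Agent.LE Pool.Agent.L5 Pool.Agent.NAB

/-- `t` is an exponent with `u ^ t = u ^ (p ^ (e - 3))` for `p`-elements and `v ^ t = 1` for `p`-regular elements. -/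
structure Tx (p e t : ℕ) (G : Type) [Group G] : Prop where
  pe : ∀ u : G, PEl p u → u ^ t = u ^ p ^ (e - 3)
  re : ∀ v : G, PReg p v → v ^ t = 1

/-- `a` is a unit of the local ring. -/
def UM (M : Ideal (integralClosure ℤ ℂ)) (a : ℂ) : Prop := IntAt M a ∧ ¬ InM M a

section

variable {G : Type} [Group G]

/-- `Ω_(m+3)⟨z⟩` for `z` of order `p ^ e`. -/
def Zg (p e m : ℕ) (z : G) : Subgroup G := Subgroup.zpowers (z ^ p ^ (e - (m + 3)))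

open Classical in
/-- `Λ_ν` -/
noncomputable def lam (Z : Subgroup G) (t : ℕ) (ν : Z →* ℂˣ) (g : G) : ℂ := if h : g ^ t ∈ Z then ((ν ⟨g ^ t, h⟩ : ℂˣ) : ℂ) else 1

/-- `Λ_ν θ` -/
noncomputable def st (Z : Subgroup G) (t : ℕ) (ν : Z →* ℂˣ) (θ : G → ℂ) : G → ℂ := fun g => lam Z t ν g * θ g

/-- same orbit -/
def orb (Z : Subgroup G) (t : ℕ) (θ θ' : G → ℂ) : Prop := ∃ ν : Z →* ℂˣ, θ' = st Z t ν θ

/-- The characters `ψ` of `L` in blocks over `B` with a unit class `z x`, `Zg z = Z`. -/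
def GS (p e m : ℕ) (M : Ideal (integralClosure ℤ ℂ)) (χ : G → ℂ) (L Z : Subgroup G) : Set (G → ℂ) :=
  {ψ | ψ ∈ IrrOn L ∧ SB M (⊤ : Subgroup G) ψ χ ∧ ∃ z x : G, Ucl p e m M L ψ z x ∧ Zg p e m z = Z}

/-- The standing hypothesis. -/
structure ZD (p e m t : ℕ) (M : Ideal (integralClosure ℤ ℂ)) (χ : G → ℂ) (Z : Subgroup G) (z x : G) : Prop where
  em : 2 * m + 5 ≤ e
  tx : Tx p e t G
  ch : χ ∈ IrrOn (⊤ : Subgroup G)
  uc : Ucl p e m M (⊤ : Subgroup G) χ z x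
  zz : Zg p e m z = Z

/-- `X` as a type -/
abbrev XX (p e m : ℕ) (M : Ideal (integralClosure ℤ ℂ)) (χ : G → ℂ) (Z : Subgroup G) : Type := {θ : G → ℂ // θ ∈ GS p e m M χ (cz Z) Z}

/-- `GS L` as a type -/
abbrev PP (p e m : ℕ) (M : Ideal (integralClosure ℤ ℂ)) (χ : G → ℂ) (L Z : Subgroup G) : Type := {ψ : G → ℂ // ψ ∈ GS p e m M χ L Z}

end

/-! ## 1. Group theory -/

/-- **TEX** (short; pure). Proof: `|G| = p ^ a * n`, `¬ p ∣ n`; Chinese remainder: `t ≡ p ^ (e - 3)` modulo `p ^ a`, `t ≡ 0` modulo `n`. For a `p`-element `orderOf u` divides `p ^ a`, for a `p`-regular element `orderOf v` divides `n` (`pow_eq_pow_iff_modEq`, `orderOf_dvd_iff_pow_eq_one`). -/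
def TEX_stmt : Prop :=
  ∀ p : ℕ, p.Prime → ∀ (e : ℕ) (G : Type) [Group G] [Finite G], ∃ t : ℕ, Tx p e t G

/-- **ZGP** (short; pure; model NEG, grep `theorem NEG`). The group `Z = Zg p e m z`. (1) `conj_pow`, `mem_cjS`. (2) `Subgroup.zpowers_le`. (3) `orderOf (z ^ p ^ (e - (m + 3))) = p ^ (m + 3)`. (4) `Eg z ≤ Zg z` since `z ^ p ^ (e - 1)` is the `p ^ (m + 2)`-th power of the generator; two subgroups of a cyclic group of the same order are equal (item 8). (5) `z` centralises `Z`; an element normalising the cyclic group `Z`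
normalises its only subgroup of order `p`; (6) NEG (4)-type: `z` is a power of `z * x`; if `Z ≤ zpowers g` then everything commuting with `g` commutes with `Z`. (7) direct. (8) `IsCyclic`: uniqueness of the subgroup of given order (`IsCyclic.card_subgroup..`, or by orders: in `zpowers g` the elements `y` with `y ^ n = 1` form a set of at most `n` elements). -/
def ZGP_stmt : Prop :=
  ∀ (p e m : ℕ), p.Prime → m + 3 ≤ e → ∀ (G : Type) [Group G] [Finite G] (z : G), PEl p z → orderOf z = p ^ e →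
    (∀ g : G, Zg p e m (g * z * g⁻¹) = cjS g (Zg p e m z)) ∧
    (∀ L : Subgroup G, z ∈ L → Zg p e m z ≤ L) ∧
    (Nat.card (Zg p e m z) = p ^ (m + 3) ∧ IsPGroup p (Zg p e m z)) ∧
    (Eg p e z ≤ Zg p e m z ∧ ∀ z' : G, PEl p z' → orderOf z' = p ^ e → Zg p e m z' = Zg p e m z → Eg p e z' = Eg p e z) ∧
    (Subgroup.centralizer ({z} : Set G) ≤ cz (Zg p e m z) ∧ cz (Zg p e m z) ≤ nz (Zg p e m z) ∧ nz (Zg p e m z) ≤ nz (Eg p e z) ∧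
      cz (Zg p e m z) ≤ cz (Eg p e z) ∧ Zg p e m z ≤ cz (Zg p e m z)) ∧
    ((∀ x : G, PReg p x → z * x = x * z → Subgroup.centralizer ({z * x} : Set G) ≤ cz (Zg p e m z)) ∧
      ∀ g : G, Zg p e m z ≤ Subgroup.zpowers g → Subgroup.centralizer ({g} : Set G) ≤ cz (Zg p e m z)) ∧
    (z ^ p ^ (e - 3) ∈ Zg p e m z ∧ orderOf (z ^ p ^ (e - 3)) = p ^ 3) ∧
    ∀ (P Q : Subgroup G) (g : G), P ≤ Subgroup.zpowers g → Q ≤ Subgroup.zpowers g → Nat.card P = Nat.card Q → P = Q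

/-- **ZGD** (short to medium; pure; from ZGP). `Z` in the `p`-group `D`, `z` central. Proof: `|D : ⟨z⟩| = p ^ j`, `j ≤ m`; `|D : Z(D)| = p ^ i` divides it, `i ≤ m`. (3) `MonoidHom.transferCenterPow`: `u ↦ u ^ (p ^ i)` is a homomorphism from (the type) `D` to its centre, which is commutative, and `u ^ p ^ (e - 3) = (u ^ p ^ i) ^ p ^ (e - 3 - i)`. (1) `w ^ p ^ m ∈ ⟨z⟩` (`Subgroup.pow_index_mem` for the normal subgroup `⟨z⟩` of `D`),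
so `w ^ p ^ (e - (m + 3)) ∈ ⟨z⟩` (`m ≤ e - (m + 3)`); `Zg w` and `Zg z` are subgroups of order `p ^ (m + 3)` of the cyclic group `⟨z⟩` (ZGP (3), (8)). (2) `u ^ p ^ m ∈ ⟨z⟩`, `u ^ p ^ (e - 3) = (u ^ p ^ m) ^ p ^ (e - 3 - m)`, and the `p ^ (e - m - 3)`-th powers of the elements of `⟨z⟩` form `Zg z`. (4) `y = u ^ p ^ m ∈ ⟨z⟩`. If `orderOf y ≥ p ^ (m + 3)` then `zpowers y ≤ zpowers z` contains the subgroup
`Zg z` of order `p ^ (m + 3)` (subgroups of `⟨z⟩` are ordered by their orders: (8)), so `Zg z ≤ zpowers u`. So `orderOf y` divides `p ^ (m + 2)`, and `u ^ p ^ (2 m + 2) = 1`, `2 m + 2 ≤ e - 3`. -/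
def ZGD_stmt : Prop :=
  ∀ (p e m : ℕ), p.Prime → 2 * m + 5 ≤ e → ∀ (G : Type) [Group G] [Finite G] (D : Subgroup G), IsPGroup p D → Nat.card D ≤ p ^ (e + m) →
    ∀ z ∈ D, (∀ d ∈ D, z * d = d * z) → orderOf z = p ^ e →
    (∀ w ∈ D, orderOf w = p ^ e → Zg p e m w = Zg p e m z) ∧ (∀ u ∈ D, u ^ p ^ (e - 3) ∈ Zg p e m z) ∧
    (∀ u ∈ D, ∀ v ∈ D, (u * v) ^ p ^ (e - 3) = u ^ p ^ (e - 3) * v ^ p ^ (e - 3)) ∧
    ∀ u ∈ D, ¬ Zg p e m z ≤ Subgroup.zpowers u → u ^ p ^ (e - 3) = 1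

/-- **ZLM** (short to medium; pure, direct). The functions `lam` (`Z` any subgroup). (1) `(g⁻¹) ^ t ∈ Z` iff `g ^ t ∈ Z`; the values of `ν` are roots of unity (`Z` is finite), so `ν(y)⁻¹` is the complex conjugate of `ν(y)`. (2) direct. (3) `(c g c⁻¹) ^ t = c g ^ t c⁻¹`, which is `g ^ t` if this is in `Z`. (4) `ν' y = ν (n⁻¹ y n)` for `n ∈ nz Z`. (5) `(u v) ^ t = u ^ t v ^ t = u ^ t`. (6) roots of unity.
(7) `s` prime to `|G|`: `g ^ t` is a power of `(g ^ t) ^ s` (orders), so `(g ^ s) ^ t ∈ Z` iff `g ^ t ∈ Z`. -/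
def ZLM_stmt : Prop :=
  ∀ (p e t : ℕ), p.Prime → ∀ (G : Type) [Group G] [Finite G], Tx p e t G → ∀ (Z : Subgroup G) (ν : Z →* ℂˣ),
    (∀ g, lam Z t ν g⁻¹ = (starRingEnd ℂ) (lam Z t ν g) ∧ lam Z t ν g * lam Z t ν g⁻¹ = 1) ∧
    ((∀ (ν' : Z →* ℂˣ) g, lam Z t (ν * ν') g = lam Z t ν g * lam Z t ν' g) ∧ (∀ g, lam Z t (1 : Z →* ℂˣ) g = 1)) ∧
    (∀ c ∈ cz Z, ∀ g, lam Z t ν (c * g * c⁻¹) = lam Z t ν g) ∧
    (∀ n ∈ nz Z, ∃ ν' : Z →* ℂˣ, (∀ (y : G) (hy : y ∈ Z) (hy' : n⁻¹ * y * n ∈ Z), ν' ⟨y, hy⟩ = ν ⟨n⁻¹ * y * n, hy'⟩) ∧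
      (∀ g, lam Z t ν' g = lam Z t ν (n⁻¹ * g * n)) ∧ ∀ θ : G → ℂ, cjF n (st Z t ν θ) = st Z t ν' (cjF n θ)) ∧
    ((∀ v : G, PReg p v → lam Z t ν v = 1) ∧ ∀ u v : G, PEl p u → PReg p v → u * v = v * u →
      lam Z t ν (u * v) = lam Z t ν u ∧ (u * v) ^ t = u ^ p ^ (e - 3)) ∧
    (∀ g, IsIntegral ℤ (lam Z t ν g)) ∧
    ∀ s : ℕ, s.Coprime (Nat.card G) → ∀ g, lam Z t ν (g ^ s) = lam Z t ν g ^ s

/-! ## 2. Unit classes -/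

/-- **ZNU** (short; from NUD, DEX, ZGD, ZGP; model NUE, NUG). (1) as NUE: `(D, y)` from DEX; NUD: `k z k⁻¹`, `k' z' k'⁻¹ ∈ D` central, `|D| ≤ p ^ (e + m)`; ZGD (1): `Zg (k' z' k'⁻¹) = Zg (k z k⁻¹)`; ZGP (1). (2) the same with `w ∈ D`. -/
def ZNU_stmt : Prop :=
  ∀ (p e m : ℕ) (M : Ideal (integralClosure ℤ ℂ)), Setup p M → 2 * m + 5 ≤ e → ∀ (G : Type) [Group G] [Finite G] (K : Subgroup G),
    ∀ η ∈ IrrOn K, ∀ z x : G, Ucl p e m M K η z x →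
    (∀ z' x' : G, Ucl p e m M K η z' x' → ∃ k ∈ K, Zg p e m z' = cjS k (Zg p e m z)) ∧
    ∀ (D : Subgroup G) (y : G), DefL p M K η D y → ∀ w ∈ D, orderOf w = p ^ e → ∃ k ∈ K, Zg p e m z = cjS k (Zg p e m w)

/-- **GBC** (short; from NUB, CJG, ZGP, TPR, TRN, B2, FEQ). (1) closed under `SB`: NUB (1), TRN. (2) NUB (1). (3) CJG: `cjF n ψ ∈ IrrOn (cjS n L)`, `SB M ⊤ (cjF n ψ) ψ` (CJG (6) for `⊤`), NUB (2), ZGP (1): `Zg (n z n⁻¹) = cjS n Z = Z`. (4) `nz Z` normalises `cz Z` (FEQ). -/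
def GBC_stmt : Prop :=
  ∀ (p e m : ℕ) (M : Ideal (integralClosure ℤ ℂ)), Setup p M → m + 3 ≤ e → ∀ (G : Type) [Group G] [Finite G] (χ : G → ℂ) (L Z : Subgroup G),
    BC M L (GS p e m M χ L Z) ∧
    (χ ∈ IrrOn (⊤ : Subgroup G) → ∀ z x : G, Ucl p e m M (⊤ : Subgroup G) χ z x → Zg p e m z = Z →
      GS p e m M χ (⊤ : Subgroup G) Z = Bl M (⊤ : Subgroup G) χ) ∧
    (∀ n ∈ nz Z, ∀ ψ ∈ GS p e m M χ L Z, cjF n ψ ∈ GS p e m M χ (cjS n L) Z) ∧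
    ∀ n ∈ nz Z, ∀ ψ ∈ GS p e m M χ (cz Z) Z, cjF n ψ ∈ GS p e m M χ (cz Z) Z

/-- **GUC** (short to medium; from EXB, TRN, NUH, NUB, ZNU, ZGP). The block `b(θ)^L` is in `GS L`. Proof: `Z` is a `p`-group, `Z ≤ cz Z ≤ L` (ZGP), `L ⊓ cz Z = cz Z`; EXB for `Q = Z`: `ψ ∈ IrrOn L`, `SB M L θ ψ`; `SB M ⊤ ψ χ` (TRN). NUH for `⊤`, `L`, `ψ` (unit class `(z, x)` of `χ`): `Ucl L ψ (g z g⁻¹) (g x g⁻¹)`; NUH for `L`, `cz Z`, `θ`: `Ucl (cz Z) θ (l g z (l g)⁻¹) _`, `l ∈ L`. ZNU (1) for `cz Z`, `θ` and its unit class with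
`Zg = Z`: `Zg (l g z (l g)⁻¹) = cjS c Z = Z` (`c ∈ cz Z`). NUB (3): `Ucl L ψ (l g z (l g)⁻¹) _`. -/
def GUC_stmt : Prop :=
  ∀ (p e m t : ℕ) (M : Ideal (integralClosure ℤ ℂ)), Setup p M → ∀ (G : Type) [Group G] [Finite G] (χ : G → ℂ) (Z : Subgroup G) (z x : G),
    ZD p e m t M χ Z z x → ∀ L : Subgroup G, cz Z ≤ L → ∀ θ ∈ GS p e m M χ (cz Z) Z, ∃ ψ ∈ GS p e m M χ L Z, SB M L θ ψ

/-- **GVN** (short to medium; from BRY, STC, CNTL, SYL, B2; as the first part of VN1 and ZTH). Characters vanish outside of the `p`-sections of the defect group. Proof: BRY (`H = K`, `y = u`): `Sf (Bl M K θ) (u v) (u v) = Sf (Bq M K (Cz K u) θ) v v`. If no `k` exists then `Bq M K (Cz K u) θ` is empty: for `η` in it CNTL for `R = zpowers u` (`Cz K u = K ⊓ cz (zpowers u)`: SYL) gives `l u l⁻¹ ∈ D`. So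
`∑_{ψ ∈ Bl M K θ} ψ (u v) * ψ (u v)⁻¹ = ∑ |ψ (u v)|² = 0` (STC), and `θ (u v) = 0`. -/
def GVN_stmt : Prop :=
  ∀ (p : ℕ) (M : Ideal (integralClosure ℤ ℂ)), Setup p M → ∀ (G : Type) [Group G] [Finite G] (K : Subgroup G), ∀ θ ∈ IrrOn K,
    ∀ (D : Subgroup G) (y : G), DefL p M K θ D y → ∀ u ∈ K, PEl p u → ∀ v ∈ Cz K u, PReg p v → θ (u * v) ≠ 0 → ∃ k ∈ K, k * u * k⁻¹ ∈ D

/-- **GSP** (short to medium; from GVN, NUD, ZGD, ZGP, ZLM). The support of `st ν θ - θ`. Proof: if `θ g = 0` both sides are `0`. Otherwise `g ∈ cz Z`, `g = u v` (`u`, `v` powers of `g`, `p`-part and `p`-regular part). NUD (second item) for the unit class `(z', x')` of `θ` with `Zg z' = Z`: `DefL p M (cz Z) θ D y`, `z' ∈ D` central, `|D| ≤ p ^ (e + m)`. GVN: `k u k⁻¹ ∈ D`, `k ∈ cz Z`.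
`Z ≤ zpowers (k u k⁻¹)` would give `Z = k⁻¹ Z k ≤ zpowers u ≤ zpowers g`. So by ZGD (4) `(k u k⁻¹) ^ p ^ (e - 3) = 1`, `u ^ p ^ (e - 3) = 1`, `g ^ t = 1` (ZLM (5)) and `lam ν g = ν 1 = 1`. -/
def GSP_stmt : Prop :=
  ∀ (p e m t : ℕ) (M : Ideal (integralClosure ℤ ℂ)), Setup p M → ∀ (G : Type) [Group G] [Finite G] (χ : G → ℂ) (Z : Subgroup G) (z x : G),
    ZD p e m t M χ Z z x → ∀ θ ∈ GS p e m M χ (cz Z) Z, ∀ (ν : Z →* ℂˣ) (g : G), ¬ Z ≤ Subgroup.zpowers g → st Z t ν θ g = θ g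

/-! ## 3. The *-construction -/

/-- **GIM** (medium; from KIP, AVG, DUN, DEX, NUD, ZGD, ZGP, ZLM, BLE, B2). Integrality at `M`. Proof: KIP for `L = cz Z`, `S = Bl M (cz Z) θ`, `f a b = lam ν a * θ' a⁻¹ * θ b` (integral values, `N = 0`; invariant: ZLM (3)). The condition: `R ≤ cz Z` a `p`-group, `w ∈ cz Z` commutes with `R`, `¬ InM M (eS (cz Z) S w)`. NUD: `DefL p M (cz Z) θ D y`, `z' ∈ D` central, `Zg z' = Z`; DUN (3) (`a = w`):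
`l ∈ cz Z`, `l⁻¹ r l ∈ D` for `r ∈ R`. So `r ↦ r ^ p ^ (e - 3)` is multiplicative on `R` with values in `l Z l⁻¹ = Z` (ZGD (2), (3)), so `μ r = lam ν r` is multiplicative on `R` (`r ^ t = r ^ p ^ (e - 3)`). For `v ∈ R` and `y` commuting with `R`, `p`-regular: `lam ν (v y) = lam ν v = μ v` (ZLM (5)). The mean is the one of AVG (`κ = θ'`, `η = θ`; `y`, `y'`), integral, so `IntAt`.
KIP: `|C|⁻² ∑_a ∑_b f a b * Sf S a b` is `IntAt`, `C = cz Z`; and `∑_{b ∈ C} θ b * Sf S a b = ∑_{χ' ∈ S} χ' a * ∑_b θ b * χ' b⁻¹ = |C| * θ a` (B2). -/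
def GIM_stmt : Prop :=
  ∀ (p e m t : ℕ) (M : Ideal (integralClosure ℤ ℂ)), Setup p M → ∀ (G : Type) [Group G] [Finite G] (χ : G → ℂ) (Z : Subgroup G) (z x : G),
    ZD p e m t M χ Z z x → ∀ θ ∈ GS p e m M χ (cz Z) Z, ∀ ν : Z →* ℂˣ, ∀ θ' ∈ IrrOn (cz Z), IntAt M (mt (cz Z) (st Z t ν θ) θ')

/-- **GIL** (short to medium; from BLI for the prime `q` and the group `cz Z`, AVG, ZLM, B2). Integrality at the other primes. Proof: BLI for the type `cz Z` and `Φ g = lam ν g * θ g * θ' g⁻¹` (class function: ZLM (3), B2; integral values, `N = 0`). Let `y` be `q`-regular, `Q` a `q`-subgroup of `C(y)`: for `u ∈ Q`: `PReg p u` (`q ≠ p`), so `u ^ t = 1` and `(u y) ^ t = y ^ t`, `lam ν (u y) = lam ν y`. The mean of `Φ (u y)` is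
`lam ν y` times the mean of AVG for `μ = 1`, `κ = θ'`, `η = θ`, `y' = y` (`R` the image of `Q` in `G`). -/
def GIL_stmt : Prop :=
  ∀ (p e t : ℕ), p.Prime → ∀ (q : ℕ) (M' : Ideal (integralClosure ℤ ℂ)), Setup q M' → q ≠ p → ∀ (G : Type) [Group G] [Finite G], Tx p e t G →
    ∀ (Z : Subgroup G) (ν : Z →* ℂˣ), ∀ θ ∈ IrrOn (cz Z), ∀ θ' ∈ IrrOn (cz Z), IntAt M' (mt (cz Z) (st Z t ν θ) θ')

/-- **GRT** (short to medium; from GLP of GR, ZLM; COPY the proof of `Pool/Agent/helper40/LZ/ZL3.lean`). Rationality. Proof: `F g = lam ν g * θ g * θ' g⁻¹`; for `σ : ℂ ≃+* ℂ` with `σ ζ = ζ ^ s` for the `|G|`-th roots of unity (`s` prime to `|G|`): `σ (θ g) = θ (g ^ s)` (GLP), `σ (lam ν g) = lam ν g ^ s = lam ν (g ^ s)` (ZLM (7)), so `σ (F g) = F (g ^ s)`, and `g ↦ g ^ s` is a permutation of `cz Z`.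
With integer polynomials as in ZL3: `F g = P_g(ζ)`, `F (g ^ s) = P_g(ζ ^ s)`. -/
def GRT_stmt : Prop :=
  ∀ (p e t : ℕ), p.Prime → ∀ (G : Type) [Group G] [Finite G], Tx p e t G →
    ∀ (Z : Subgroup G) (ν : Z →* ℂˣ), ∀ θ ∈ IrrOn (cz Z), ∀ θ' ∈ IrrOn (cz Z), ∃ r : ℚ, mt (cz Z) (st Z t ν θ) θ' = (r : ℂ)

/-- **GST** (medium; from GIM, GIL, GRT, ZLM, B2, EXP or CPL, QEI, FBC, NUB, TRN). THE *-CONSTRUCTION. Proof: `C = cz Z`, `r θ' = mt C (st ν θ) θ'` for `θ' ∈ IrrOn C`. It is an integer: rational `a / b` in lowest terms (GRT); a prime `q ∣ b`: if `q = p`, GIM gives `β ∉ M` with `(a / b) β = α'` integral, `a β = b α' ∈ M`, a contradiction; if `q ≠ p` take a maximal ideal `M' ∋ q` and GIL (as ZL5, grep `theorem ZL5`).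
`st ν θ` is a class function of `C`, so `st ν θ = ∑ r θ' • θ'` (EXP), and `∑ (r θ')² = |C|⁻¹ ∑_{g ∈ C} |st ν θ g|² = |C|⁻¹ ∑ |θ g|² = 1` (ZLM (1)). So exactly one `r θ'` is `± 1`, `st ν θ = ± θ'`, and `st ν θ 1 = θ 1 > 0`: `st ν θ = θ' ∈ IrrOn C`. Same block: `st ν θ` and `θ` agree on the `p`-regular elements (ZLM (5)), so `EE p C (st ν θ) θ = EE p C θ θ ≠ 0` (QEI (4)), QEI (2) for
`S = Bl M C θ`. Then `SB M ⊤ (st ν θ) χ` (TRN) and the unit class (NUB (1)). -/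
def GST_stmt : Prop :=
  ∀ (p e m t : ℕ) (M : Ideal (integralClosure ℤ ℂ)), Setup p M → ∀ (G : Type) [Group G] [Finite G] (χ : G → ℂ) (Z : Subgroup G) (z x : G),
    ZD p e m t M χ Z z x → ∀ θ ∈ GS p e m M χ (cz Z) Z, ∀ ν : Z →* ℂˣ, st Z t ν θ ∈ GS p e m M χ (cz Z) Z ∧ SB M (cz Z) (st Z t ν θ) θ

/-- **GOB** (short; from ZLM, GST). Orbits. (1), (2) `ν = 1`, `ν⁻¹`, products (ZLM (2)): on all functions. (3) ZLM (4): `cjF n` preserves `orb` for `n ∈ nz Z`. (4) GST. -/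
def GOB_stmt : Prop :=
  ∀ (p e t : ℕ), p.Prime → ∀ (G : Type) [Group G] [Finite G], Tx p e t G → ∀ Z : Subgroup G,
    (∀ θ : G → ℂ, orb Z t θ θ) ∧ (∀ θ θ' : G → ℂ, orb Z t θ θ' → orb Z t θ' θ) ∧
    (∀ θ θ' θ'' : G → ℂ, orb Z t θ θ' → orb Z t θ' θ'' → orb Z t θ θ'') ∧
    ∀ n ∈ nz Z, ∀ θ θ' : G → ℂ, orb Z t θ θ' → orb Z t (cjF n θ) (cjF n θ')

/-- **GOS** (short to medium; from ZGP, ZLM, GST). The orbits have at least `p ^ 3` elements. Proof: let `(z', x')` be the unit class of `θ` with `Zg z' = Z`; `θ (z' x') ≠ 0` (otherwise `cc θ (cls (cz Z) (z' x')) = 0`). `y = z' ^ p ^ (e - 3) ∈ Z` has order `p ^ 3` (ZGP (7)), `(z' x') ^ t = y`, so `lam ν (z' x') = ν y` and `st ν θ = st ν' θ` implies `ν y = ν' y`. `Z` is cyclic of order `p ^ (m + 3)` with generator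
`c`, `y = c ^ k` and `orderOf y = p ^ 3`; let `ν c = ζ` be a primitive `p ^ (m + 3)`-th root of unity (`zpowersHom`-type homomorphism, or `IsCyclic.monoidHom..`; such a `ν : Z →* ℂˣ` exists), `ν y = ζ ^ k` has order `p ^ 3`; the `ν ^ j`, `0 ≤ j < p ^ 3`, have different values at `y`: `p ^ 3` different elements `st (ν ^ j) θ`. -/
def GOS_stmt : Prop :=
  ∀ (p e m t : ℕ) (M : Ideal (integralClosure ℤ ℂ)), Setup p M → ∀ (G : Type) [Group G] [Finite G] (χ : G → ℂ) (Z : Subgroup G) (z x : G),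
    ZD p e m t M χ Z z x → ∀ θ ∈ GS p e m M χ (cz Z) Z, p ^ 3 ≤ Nat.card {θ' : G → ℂ // orb Z t θ θ'} ∧ Finite {θ' : G → ℂ // orb Z t θ θ'} ∧
      ∀ z' x' : G, Ucl p e m M (cz Z) θ z' x' → Zg p e m z' = Z → θ (z' * x') ≠ 0 ∧ (z' * x') ^ t = z' ^ p ^ (e - 3)

/-! ## 4. Stabilisers -/

/-- **GS4** (medium; from SBI, DCM, CLS, NUH-type argument, ZNU, ZGP, CJG, TRN, C3, IM). `H = nz Z`, `C = cz Z`, `g₀ = z x`. Proof: `cc θ (cls ⊤ g₀)` is not `InM` (SBI for `SB M ⊤ θ χ`). `W = {h g₀ h⁻¹ | h ∈ H}`; `W ⊆ C` (`g₀` commutes with `z`, so with `Z`), invariant under `H`. If `w = g g₀ g⁻¹ ∈ C` and `cc θ (cls C w)` is not `InM` then `(g z g⁻¹, g x g⁻¹)` is a unit class of `θ` in `C` (`cd`: SYL), so `cjS g Z = Zg (g z g⁻¹) = cjS c Z = Z`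
(ZNU (1), `θ ∈ GS C`), `g ∈ H`, `w ∈ W`. DCM (1) for `cls ⊤ g₀ - 1_W`: `cc θ 1_W` is not `InM`. For `h ∈ H` let `F h = cc θ (cls C (h g₀ h⁻¹))` (integral). `F (c h) = F h` for `c ∈ C`, `F (h c) = F h` as `h c h⁻¹ ∈ C`. The classes `cls C (h g₀ h⁻¹)`, `cls C (h' g₀ h'⁻¹)` are equal iff `h' ∈ C h C_G(g₀) = C h` (`C_G(g₀) ≤ C`: ZGP (6)), so `1_W = ∑ cls C (h g₀ h⁻¹)` over representatives `h` of `H / C`, and
`cc θ 1_W = ∑_{h ∈ H / C} F h`. Now `F (n h) = cc θ (cls C (n (h g₀ h⁻¹) n⁻¹)) ≡ cc (cjF n θ) (cls C (n (h g₀ h⁻¹) n⁻¹)) = F h` modulo `InM` (`SB M C (cjF n θ) θ`, SBI, CJG (3)). If `n ∉ C`: `n` acts on `H / C` by multiplication with orbits of length the order `p ^ j > 1` of `n C`; the sum over one orbit is congruent to `p ^ j * F h`, `InM`. So `cc θ 1_W` would be `InM`. -/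
def GS4_stmt : Prop :=
  ∀ (p e m t : ℕ) (M : Ideal (integralClosure ℤ ℂ)), Setup p M → ∀ (G : Type) [Group G] [Finite G] (χ : G → ℂ) (Z : Subgroup G) (z x : G),
    ZD p e m t M χ Z z x → ∀ θ ∈ GS p e m M χ (cz Z) Z, ∀ n ∈ nz Z, SB M (cz Z) (cjF n θ) θ → ∀ k : ℕ, n ^ p ^ k ∈ cz Z → n ∈ cz Z

/-- **GFX** (medium; from GS4, GST, GOB, GOS, ZLM, ZGP). Fixed points. `C = cz Z`, `Z = ⟨c⟩` cyclic of order `p ^ κ`, `κ = m + 3`. Proof: (a) for `a ∈ A`: `SB M C (cjF a θ) θ` (GST). For `a ∈ nz Z` there is `n_a` with `a y a⁻¹ = y ^ n_a` for all `y ∈ Z` (`a c a⁻¹ = c ^ n_a`), `n_a` prime to `p`; `n_(ab) ≡ n_a n_b` modulo `p ^ κ`. If `n_a ≡ 1` modulo `p` then `n_a ^ p ^ (κ - 1) ≡ 1` modulo `p ^ κ`, so `a ^ p ^ (κ - 1) ∈ C` and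
`a ∈ C` for `a ∈ A` (GS4). So `a ↦ n_a` modulo `p` is a homomorphism `A → (ZMod p)ˣ` with kernel `C` (as `C ≤ A`): `|A| ≤ (p - 1) |C|`. If `A ≤ cz (Eg p e z)`: `E = ⟨c ^ p ^ (κ - 1)⟩ ≤ Z` is centralised, so `n_a ≡ 1` modulo `p`: `A ≤ C`. (b) `(ZMod p)ˣ` is cyclic, so there is `a₀ ∈ A` whose image generates the image of `A`, and `A` is generated by `a₀` and `C` (every `a ∈ A` is `a₀ ^ j * c'`, `c' ∈ C`). If `a₀ ∈ C`
(`A = C`) take `y = θ`. Otherwise `n = n_(a₀)`, `n - 1` prime to `p`. `cjF a₀ θ = st ν₁ θ`. `cjF a₀ (st μ θ) = st μ' (cjF a₀ θ) = st (μ' ν₁) θ`, `μ' y = μ (a₀⁻¹ y a₀)` (ZLM (4)), so `μ' = μ ^ n'` with `n n' ≡ 1` modulo `p ^ κ`, `n' - 1` prime to `p`. Choose `k` with `k (n' - 1) ≡ -1` modulo `p ^ κ`, `μ = ν₁ ^ k`: `μ' ν₁ μ⁻¹ = ν₁ ^ (k (n' - 1) + 1) = 1` (`ν₁ ^ p ^ κ = 1`). So `y = st μ θ` is fixed by `a₀`, and by `C` (class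 functions
of `C`), so by `A`. (c) Let `y' = st μ y ≠ y` be fixed by `a ∈ A`, `a ∉ C`: `st μ y = cjF a (st μ y) = st μ' y`, `μ' = μ ^ n'`, so `st (μ ^ (n' - 1)) y = y`; `n' - 1` is prime to `p`, so `μ` is a power of `μ ^ (n' - 1)` and `st μ y = y`. -/
def GFX_stmt : Prop :=
  ∀ (p e m t : ℕ) (M : Ideal (integralClosure ℤ ℂ)), Setup p M → ∀ (G : Type) [Group G] [Finite G] (χ : G → ℂ) (Z : Subgroup G) (z x : G),
    ZD p e m t M χ Z z x → ∀ θ ∈ GS p e m M χ (cz Z) Z, ∀ A : Subgroup G, A ≤ nz Z → cz Z ≤ A → (∀ a ∈ A, orb Z t θ (cjF a θ)) →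
    (∃ y : G → ℂ, orb Z t θ y ∧ (∀ a ∈ A, cjF a y = y) ∧ ∀ a ∈ A, ∀ y' : G → ℂ, orb Z t θ y' → y' ≠ y → cjF a y' = y' → a ∈ cz Z) ∧
    Nat.card A ≤ (p - 1) * Nat.card (cz Z) ∧ (A ≤ cz (Eg p e z) → A ≤ cz Z)

/-- **GAC** (medium; from GFX, GOS, GOB, GST, GBC, B2, CJG). The action of `A = A₀` on `X = GS (cz Z)`. Proof: `act a θ = ⟨cjF a θ, _⟩` (GBC (4)); `one`, `mul` (`cjF 1`, `cjF (a b)`), `triv` (a character of `cz Z` is a class function of `cz Z`), `eqv`, `pres` by GOB. `fix`, `st`: for `θ ∈ X` the set `A' = {a ∈ A₀ | orb θ (cjF a θ)}` is a subgroup of `G` (GOB) which contains `cz Z` (and if `cjF a y' = y'` for some `y'` in the orbit and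
`a ∈ A₀` then `a ∈ A'`): GFX for `A'`. `st`: `Nat.card` of the subtype is `|A'|`, `|(cz Z).subgroupOf A₀| = |cz Z|`. `sz`: the class of `θ` in `X` is the orbit (GST), GOS: `(p - 1) * (p - 1 + 3) + 1 ≤ p ^ 3`. Second part: `A₀ ≤ cz (Eg p e z)`: GFX (last item) gives `A' ≤ cz Z`, so `|A'| = |cz Z|`, and `1 * (1 + 3) + 1 ≤ p ^ 3`. -/
def GAC_stmt : Prop :=
  ∀ (p e m t : ℕ) (M : Ideal (integralClosure ℤ ℂ)), Setup p M → ∀ (G : Type) [Group G] [Finite G] (χ : G → ℂ) (Z : Subgroup G) (z x : G),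
    ZD p e m t M χ Z z x → ∀ A₀ : Subgroup G, A₀ ≤ nz Z → cz Z ≤ A₀ →
    ∃ act : A₀ → XX p e m M χ Z → XX p e m M χ Z, (∀ a θ, (act a θ : G → ℂ) = cjF (a : G) (θ : G → ℂ)) ∧
      Acn ((cz Z).subgroupOf A₀) act (fun θ θ' => orb Z t (θ : G → ℂ) (θ' : G → ℂ)) (p - 1) ∧
      (A₀ ≤ cz (Eg p e z) → Acn ((cz Z).subgroupOf A₀) act (fun θ θ' => orb Z t (θ : G → ℂ) (θ' : G → ℂ)) 1 ∧
        ∀ (θ : XX p e m M χ Z) (a : A₀), orb Z t (θ : G → ℂ) (act a θ : G → ℂ) → a ∈ (cz Z).subgroupOf A₀)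

/-! ## 5. The kernel and the scalar products -/

/-- **GKR** (medium; from BRY, BR0, SFC, EXB, TRN, FBC, SYL, PPT-type decomposition, ZGP (8)). THE KERNEL on `S`. `T` a union of blocks of `L`, `T' = {φ ∈ IrrOn (cz Z) | ∃ ψ ∈ T, SB M L φ ψ}`. Proof: `C = cz Z ≤ L`, `a = u v`, `b = u' v'` (`p`-parts, `p`-regular parts; powers of `a`, `b`); `Z` is a `p`-group, so `Z ≤ zpowers u`, `Z ≤ zpowers u'`, and `C_G(u) ≤ C`, so `Cz L u = Cz C u =: K`, the same for `u'`. (1) CLAIM: for `w, w' ∈ K` `p`-regular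
`Sf T (u w) (u w') = Sf T' (u w) (u w')`. BRY for every block of `L` contained in `T`: the left side is `Sf T₁ w w'`, `T₁ = {η ∈ IrrOn K | ∃ ψ ∈ T, SB M L η ψ}` (disjoint unions of blocks); for `C`: the right side is `Sf T₂ w w'`, `T₂ = {η ∈ IrrOn K | ∃ φ ∈ T', SB M C η φ}`. `T₂ ⊆ T₁`: TRN. `T₁ ⊆ T₂`: EXB for `C`, `Q = zpowers u` (`K = C ⊓ cz (zpowers u)`: SYL): `φ ∈ IrrOn C`, `SB M C η φ`, `SB M L φ ψ` (TRN).
(2) If `u`, `u'` are not conjugate in `L` then the left side is `0` (BR0), and every term on the right is `0` (BR0 for `C`, `t a t⁻¹ = (t u t⁻¹)(t v t⁻¹)`). (3) Otherwise `l u l⁻¹ = u'`, `l ∈ L`: `Z` and `l Z l⁻¹` are subgroups of the same order of `zpowers u'`, so equal (ZGP (8)): `l ∈ nz Z ⊓ L`. `Sf T a b = Sf T (l a l⁻¹) b = Sf T' (l a l⁻¹) b` (SFC, (1)). The term of `t` is `0` unless `c t u t⁻¹ c⁻¹ = u'` for some `c ∈ C`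 (BR0), i.e.
`l⁻¹ c t ∈ C_G(u) ≤ C`, i.e. `t ∈ C l C = C l` (`C` is normal in `nz Z`); for `t = c l` the term is `Sf T' (l a l⁻¹) b` (SFC). So the right side is `|C|` times it. -/
def GKR_stmt : Prop :=
  ∀ (p : ℕ) (M : Ideal (integralClosure ℤ ℂ)), Setup p M → ∀ (G : Type) [Group G] [Finite G] (Z L : Subgroup G), IsPGroup p Z → Z ≤ cz Z →
    cz Z ≤ L → ∀ T : Set (G → ℂ), BC M L T → ∀ a ∈ L, ∀ b ∈ L, Z ≤ Subgroup.zpowers a → Z ≤ Subgroup.zpowers b →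
    (Nat.card (cz Z) : ℂ) * Sf T a b = ∑ᶠ s ∈ ((nz Z ⊓ L : Subgroup G) : Set G), Sf {φ | φ ∈ IrrOn (cz Z) ∧ ∃ ψ ∈ T, SB M L φ ψ} (s * a * s⁻¹) b

open Classical in
/-- **GGR** (medium; from GKR, GSP, GST, B2, CJG, TRN). THE SCALAR PRODUCTS. `T` a union of blocks of `L`, `T'` as in GKR, `C = cz Z`. Proof: `mt C ψ θ₁ - mt C ψ θ₁' = |C|⁻¹ ∑_{a ∈ C} ψ a * (θ₁ - θ₁') a⁻¹` and (substitute `b⁻¹`) `mt C ψ θ₂ - mt C ψ θ₂' = |C|⁻¹ ∑_{b ∈ C} ψ b⁻¹ * (θ₂ - θ₂') b`. The functions `θ₁ - θ₁'`, `θ₂ - θ₂'` vanish at `g` unless `Z ≤ zpowers g` (GSP; `zpowers g⁻¹ = zpowers g`).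
So by GKR `|C| * (left side) = |C|⁻² ∑_{s} ∑_{a, b ∈ C} Sf T' (s a s⁻¹) b * (θ₁ - θ₁') a⁻¹ * (θ₂ - θ₂') b`, and `∑_{b ∈ C} Sf T' a' b * θ b = |C| * θ a'` for `θ ∈ T'`, `0` for `θ ∈ IrrOn C`, `θ ∉ T'` (B2). (1) it is `|C|⁻¹ ∑_s ∑_{a ∈ C} (θ₂ - θ₂') (s a s⁻¹) * (θ₁ - θ₁') a⁻¹`, `θ₂ (s a s⁻¹) = (cjF s⁻¹ θ₂) a`, orthogonality (B2): `∑_s ([cjF s⁻¹ θ₂ = θ₁] - ..)`; replace `s` by `s⁻¹`. (2) it is `0`. -/
def GGR_stmt : Prop :=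
  ∀ (p e m t : ℕ) (M : Ideal (integralClosure ℤ ℂ)), Setup p M → ∀ (G : Type) [Group G] [Finite G] (χ : G → ℂ) (Z : Subgroup G) (z x : G),
    ZD p e m t M χ Z z x → ∀ L : Subgroup G, cz Z ≤ L → ∀ T : Set (G → ℂ), BC M L T →
    ∀ θ₁ ∈ GS p e m M χ (cz Z) Z, ∀ θ₁' : G → ℂ, orb Z t θ₁ θ₁' → ∀ θ₂ ∈ GS p e m M χ (cz Z) Z, ∀ θ₂' : G → ℂ, orb Z t θ₂ θ₂' →
    ((∃ ψ ∈ T, SB M L θ₂ ψ) → (Nat.card (cz Z) : ℂ) * ∑ᶠ ψ ∈ T, (mt (cz Z) ψ θ₁ - mt (cz Z) ψ θ₁') * (mt (cz Z) ψ θ₂ - mt (cz Z) ψ θ₂') =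
      ∑ᶠ s ∈ ((nz Z ⊓ L : Subgroup G) : Set G), ((if cjF s θ₂ = θ₁ then (1 : ℂ) else 0) - (if cjF s θ₂ = θ₁' then 1 else 0) -
        (if cjF s θ₂' = θ₁ then 1 else 0) + (if cjF s θ₂' = θ₁' then 1 else 0))) ∧
    (¬ (∃ ψ ∈ T, SB M L θ₂ ψ) → ∑ᶠ ψ ∈ T, (mt (cz Z) ψ θ₁ - mt (cz Z) ψ θ₁') * (mt (cz Z) ψ θ₂ - mt (cz Z) ψ θ₂') = 0)

/-- **GOU** (short; from GGR, GUC, GBC, B3 or the rows on `mt` (natural numbers), B2). Characters of `L` outside of `GS L`. Proof: `T = IrrOn L \ GS L` is a union of blocks (GBC (1)). `θ ∈ X`: there is no `ψ ∈ T` with `SB M L θ ψ` (GUC: `ψ₀ ∈ GS L`, `SB M L θ ψ₀`, so `SB M L ψ ψ₀`, `ψ ∈ GS L` by `BC.closed`). GGR (2) for `θ₁ = θ₂ = θ`, `θ₁' = θ₂' = θ'`: `∑_{ψ ∈ T} (mt ψ θ - mt ψ θ')² = 0`; the numbers are real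
(`mt` of characters: natural numbers), so all are `0`. -/
def GOU_stmt : Prop :=
  ∀ (p e m t : ℕ) (M : Ideal (integralClosure ℤ ℂ)), Setup p M → ∀ (G : Type) [Group G] [Finite G] (χ : G → ℂ) (Z : Subgroup G) (z x : G),
    ZD p e m t M χ Z z x → ∀ L : Subgroup G, cz Z ≤ L → ∀ ψ ∈ IrrOn L, ψ ∉ GS p e m M χ L Z →
    ∀ θ ∈ GS p e m M χ (cz Z) Z, ∀ θ' : G → ℂ, orb Z t θ θ' → mt (cz Z) ψ θ = mt (cz Z) ψ θ'

open Classical in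
/-- **GSY** (medium; from GGR, GSP, GUC, GBC, GOB, GST, BR0, B2, the rows on `mt` (natural numbers), CJG). THE SYSTEM for `L`, `A₀ = nz Z ⊓ L`. Proof: for `ψ ∈ GS L`, `θ ∈ X` `mt (cz Z) ψ θ` is a natural number (QRS, B3 or INT of DD: `ψ` restricted to `cz Z ≤ L`). `D ψ θ θ' = mt ψ θ - mt ψ θ'` if `orb θ θ'`, `0` otherwise; `w ψ = ψ 1 > 0`. `ad`, `nr` clear (GOB). `eq`: `ψ` is a class function of `L`, `mt ψ (cjF a θ) = mt ψ θ` for `a ∈ A₀`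
(substitute; `cjS a (cz Z) = cz Z`). `gr`: GGR (1) for `T = GS L` (GBC (1)), GUC; `|(cz Z).subgroupOf A₀| = |cz Z|`; equality in the subtype. `dg`: `∑_{ψ ∈ GS L} ψ 1 * (mt ψ θ - mt ψ θ') = |C|⁻¹ ∑_{a ∈ C} (∑_ψ ψ 1 * ψ a⁻¹) (θ - θ') a` (substitute `a⁻¹`) `= |C|⁻¹ ∑_a Sf (GS L) 1 a * (θ - θ') a`, only `a` with `Z ≤ zpowers a` matter (GSP), whose `p`-part is not `1` (`Z ≠ ⊥`):
`Sf (GS L) 1 a = 0` (BR0). -/
def GSY_stmt : Prop :=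
  ∀ (p e m t : ℕ) (M : Ideal (integralClosure ℤ ℂ)), Setup p M → ∀ (G : Type) [Group G] [Finite G] (χ : G → ℂ) (Z : Subgroup G) (z x : G),
    ZD p e m t M χ Z z x → ∀ L A₀ : Subgroup G, cz Z ≤ L → A₀ = nz Z ⊓ L → ∀ act : A₀ → XX p e m M χ Z → XX p e m M χ Z,
    (∀ a θ, (act a θ : G → ℂ) = cjF (a : G) (θ : G → ℂ)) →
    ∃ (w : PP p e m M χ L Z → ℤ) (D : PP p e m M χ L Z → XX p e m M χ Z → XX p e m M χ Z → ℤ),
      (∀ ψ θ θ', ((D ψ θ θ' : ℤ) : ℂ) = if orb Z t (θ : G → ℂ) (θ' : G → ℂ) then mt (cz Z) (ψ : G → ℂ) (θ : G → ℂ) - mt (cz Z) (ψ : G → ℂ) (θ' : G → ℂ) else 0) ∧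
      Sys ((cz Z).subgroupOf A₀) act (fun θ θ' => orb Z t (θ : G → ℂ) (θ' : G → ℂ)) w D

/-- **GVF** (medium; from BRY, BR0, SFC, PPT, B2, EXB, TRN (as the claim (1) of GKR), GST, GVN, NUH, DEX, ZNU, ZLM, ZGP). THE VALUE at `g₀ = z x`. `C = cz Z`. Proof: (i) `ψ g₀ = |L|⁻¹ ∑_{b ∈ L} Sf (GS L) g₀ b * ψ b` (`ψ ∈ GS L`, B2). By PPT and BR0 only the `b = u v` with `u` conjugate to `z` in `L` matter; conjugating, it is `|C_G(z)|⁻¹ ∑_v Sf (GS L) (z x) (z v) * ψ (z v)`, over the `p`-regular `v ∈ C_G(z)` (`C_G(z) ≤ C ≤ L`). By the claim (1) of GKR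
`Sf (GS L) (z x) (z v) = Sf T' (z x) (z v)`, `T' = {φ ∈ IrrOn C | ∃ ψ' ∈ GS L, SB M L φ ψ'}`; the same computation in `C`: `ψ g₀ = |C|⁻¹ ∑_{b ∈ C} Sf T' g₀ b * ψ b = ∑_{φ ∈ T'} φ g₀ * mt C ψ φ`. (ii) `φ ∈ T'`, `φ ∉ X`: `φ g₀ = 0`: `SB M ⊤ φ χ` (TRN), NUH: `Ucl C φ (g z g⁻¹) _`; `DefL p M C φ D y` (DEX); if `φ (z x) ≠ 0`: GVN: `c z c⁻¹ ∈ D`, ZNU (2): `Zg (g z g⁻¹) = cjS k (cjS c Z) = Z` (`k, c ∈ C`), so
`φ ∈ X`. `X ⊆ T'`: GUC. So `ψ g₀ = ∑_{θ ∈ X} mt C ψ θ * θ g₀`. (iii) For every `ν` the map `θ ↦ st ν θ` is a permutation of `X` (GST): `ψ g₀ = ∑_θ mt C ψ (st ν θ) * lam ν g₀ * θ g₀`; take the mean over the finite group of the `ν` and subtract `0 = (∑_ν lam ν g₀) * ∑_θ mt C ψ θ * θ g₀`: `lam ν g₀ = ν (z ^ p ^ (e - 3))` (ZLM (5)) is not always `1` (`z ^ p ^ (e - 3) ≠ 1` and `Z` is cyclic), and multiplicative in `ν`, so the sum is `0`.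 -/
def GVF_stmt : Prop :=
  ∀ (p e m t : ℕ) (M : Ideal (integralClosure ℤ ℂ)), Setup p M → ∀ (G : Type) [Group G] [Finite G] (χ : G → ℂ) (Z : Subgroup G) (z x : G),
    ZD p e m t M χ Z z x → ∀ L : Subgroup G, cz Z ≤ L → ∀ ψ ∈ GS p e m M χ L Z,
    ψ (z * x) = - ((Nat.card (Z →* ℂˣ) : ℂ)⁻¹ * ∑ᶠ θ ∈ GS p e m M χ (cz Z) Z, ∑ᶠ ν : Z →* ℂˣ,
      θ (z * x) * lam Z t ν (z * x) * (mt (cz Z) ψ θ - mt (cz Z) ψ (st Z t ν θ)))

/-- **GNV** (short; from GVF, GST, CLS). Some `D ψ` is not `0`. Proof: `ψ (z x) ≠ 0`, as otherwise `cc ψ (cls L (z x)) = 0` (`ψ` is constant on the class). GVF. -/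
def GNV_stmt : Prop :=
  ∀ (p e m t : ℕ) (M : Ideal (integralClosure ℤ ℂ)), Setup p M → ∀ (G : Type) [Group G] [Finite G] (χ : G → ℂ) (Z : Subgroup G) (z x : G),
    ZD p e m t M χ Z z x → ∀ L : Subgroup G, cz Z ≤ L → ∀ ψ ∈ GS p e m M χ L Z, Ucl p e m M L ψ z x →
    ∃ θ ∈ GS p e m M χ (cz Z) Z, ∃ θ' ∈ GS p e m M χ (cz Z) Z, orb Z t θ θ' ∧ mt (cz Z) ψ θ ≠ mt (cz Z) ψ θ'

/-- **GDF** (short to medium; from B2, CLS, Ari). The defect and the value at a unit class. Proof: `g = z x`, `v` the exponent of `p` in `|C_G(g)|`; `Cz L g = Subgroup.centralizer {g}`. `cc ψ (cls L g) = (|L| / |C_G(g)|) * ψ g / ψ 1` (the class has `|L| / |Cz L g|` elements), integral (C3) and not `InM`: a unit. `|L| = p ^ a r`, `|C_G(g)| = p ^ v s`, `ψ 1 = p ^ b u` with `r, s, u` prime to `p` (units, `InM.natCast`): so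
`p ^ (a - v - b) * ψ g` is a unit (`UM`), and `Defect p L ψ d` iff `d = a - b` (`Defect`: `ψ 1 = n`). `UM` of `p ^ i * y` and `p ^ j * y` (`i, j ∈ ℤ`) implies `i = j` (`p` is `InM`). -/
def GDF_stmt : Prop :=
  ∀ (p e m : ℕ) (M : Ideal (integralClosure ℤ ℂ)), Setup p M → ∀ (G : Type) [Group G] [Finite G] (L : Subgroup G), ∀ ψ ∈ IrrOn L,
    ∀ z x : G, Ucl p e m M L ψ z x → Subgroup.centralizer ({z * x} : Set G) ≤ L → ∀ d : ℤ,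
    (Defect p L ψ d ↔ UM M ((p : ℂ) ^ (d - (padicValNat p (Nat.card (Subgroup.centralizer ({z * x} : Set G))) : ℤ)) * ψ (z * x)))

/-! ## 6. The subgroup `nz E`: equality -/

/-- **GCL** (short to medium; from B9 of DI, CFA or CCJ of DR, B2). Clifford theory, cyclic quotient: `K = cz E`, `N = nz E`, `E` of prime order. Proof: `N / K` embeds in `Aut(E)`, cyclic, so `CycQ (K.subgroupOf N)` in the type `N`; B9 (1) for the type `N` (transfer of `IrrOn` as in B10, B0): `η` restricted to `K` is the sum of the different conjugates of some `ξ₀` (`OverP`), each with multiplicity one (orthogonality B2). -/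
def GCL_stmt : Prop :=
  ∀ (p : ℕ), p.Prime → ∀ (G : Type) [Group G] [Finite G] (E : Subgroup G), Nat.card E = p → ∀ η ∈ IrrOn (nz E),
    (∀ ξ ∈ IrrOn (cz E), mt (cz E) η ξ = 0 ∨ mt (cz E) η ξ = 1) ∧
    ∀ ξ ∈ IrrOn (cz E), ∀ ξ' ∈ IrrOn (cz E), mt (cz E) η ξ ≠ 0 → mt (cz E) η ξ' ≠ 0 → ∃ n ∈ nz E, ξ' = cjF n ξ

open Classical in
/-- **GC1** (short to medium; from KC1, GAC, GSY, ZGP). The structure of `GS C₁`, `C₁ = cz E`. Proof: `L = C₁`, `A₀ = nz Z ⊓ C₁ ≤ cz E`, `cz Z ≤ A₀` (ZGP (5)). GAC, GSY, KC1 (`b = 1`). Extend `ξ`, `ε` to functions. `mt ψ θ - mt ψ θ' = D ψ θ θ'` for `orb θ θ'`. -/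
def GC1_stmt : Prop :=
  ∀ (p e m t : ℕ) (M : Ideal (integralClosure ℤ ℂ)), Setup p M → ∀ (G : Type) [Group G] [Finite G] (χ : G → ℂ) (Z : Subgroup G) (z x : G),
    ZD p e m t M χ Z z x → ∃ (ξ : (G → ℂ) → (G → ℂ)) (ε : (G → ℂ) → ℂ),
      (∀ θ ∈ GS p e m M χ (cz Z) Z, ξ θ ∈ GS p e m M χ (cz (Eg p e z)) Z ∧ (ε θ = 1 ∨ ε θ = -1)) ∧
      (∀ ψ ∈ GS p e m M χ (cz (Eg p e z)) Z, ∀ θ ∈ GS p e m M χ (cz Z) Z, ∀ θ' ∈ GS p e m M χ (cz Z) Z, orb Z t θ θ' →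
        mt (cz Z) ψ θ - mt (cz Z) ψ θ' = ε θ * ((if ψ = ξ θ then 1 else 0) - (if ψ = ξ θ' then 1 else 0))) ∧
      ∀ θ ∈ GS p e m M χ (cz Z) Z, ∀ θ' ∈ GS p e m M χ (cz Z) Z, ξ θ = ξ θ' → ∃ a ∈ nz Z ⊓ cz (Eg p e z), θ' = cjF a θ

open Classical in
/-- **GEV** (short to medium; from GFX, GOS, GOB, GBC, ZGP, CJG). Equivariance of any `ξ`, `ε` as in GC1. `C₁ = cz E`, `h ∈ nz Z ≤ nz E`. Proof: (a) if `orb θ θ'` and `ξ θ = ξ θ'` then `θ' = cjF a θ`, `a ∈ nz Z ⊓ C₁`, and `a ∈ A' = {a ∈ nz Z ⊓ C₁ | orb θ (cjF a θ)} = cz Z` (GFX, last item), so `θ' = θ`. (b) `ψ' = cjF h (ξ θ) ∈ GS C₁` (GBC (3), `cjS h C₁ = C₁`), and `mt ψ' (cjF h θ') = mt (ξ θ) θ'` (substitute).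
So for `θ'` in the orbit of `θ`, `θ' ≠ θ`: `mt ψ' (cjF h θ) - mt ψ' (cjF h θ') = ε θ * (1 - 0) ≠ 0`, and it is `± ([ψ' = ξ (cjF h θ)] - [ψ' = ξ (cjF h θ')])`. If `ψ' ≠ ξ (cjF h θ)` then `ψ' = ξ (cjF h θ')` for all `θ' ≠ θ` in the orbit; there are at least two (`p ^ 3 ≥ 8`), and by (a) `cjF h θ' = cjF h θ''`, a contradiction. -/
def GEV_stmt : Prop :=
  ∀ (p e m t : ℕ) (M : Ideal (integralClosure ℤ ℂ)), Setup p M → ∀ (G : Type) [Group G] [Finite G] (χ : G → ℂ) (Z : Subgroup G) (z x : G),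
    ZD p e m t M χ Z z x → ∀ (ξ : (G → ℂ) → (G → ℂ)) (ε : (G → ℂ) → ℂ),
      (∀ θ ∈ GS p e m M χ (cz Z) Z, ξ θ ∈ GS p e m M χ (cz (Eg p e z)) Z ∧ (ε θ = 1 ∨ ε θ = -1)) →
      (∀ ψ ∈ GS p e m M χ (cz (Eg p e z)) Z, ∀ θ ∈ GS p e m M χ (cz Z) Z, ∀ θ' ∈ GS p e m M χ (cz Z) Z, orb Z t θ θ' →
        mt (cz Z) ψ θ - mt (cz Z) ψ θ' = ε θ * ((if ψ = ξ θ then 1 else 0) - (if ψ = ξ θ' then 1 else 0))) →
      (∀ θ ∈ GS p e m M χ (cz Z) Z, ∀ θ' ∈ GS p e m M χ (cz Z) Z, ξ θ = ξ θ' → ∃ a ∈ nz Z ⊓ cz (Eg p e z), θ' = cjF a θ) →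
      ∀ h ∈ nz Z, ∀ θ ∈ GS p e m M χ (cz Z) Z, ξ (cjF h θ) = cjF h (ξ θ)

/-- **GQQ** (medium; from GC1, GEV, GCL, GOU, GOB, ZNU, NUB, ZGP, CJG, QRS or B3 (restriction), B2). The conditions `q1`, `q2` for `N₁ = nz E`. `C = cz Z ≤ C₁ = cz E ≤ N₁`. Proof: `η ∈ GS N₁`; on `C₁` `η = ∑_{ξ' ∈ IrrOn C₁} m ξ' * ξ'`, `m ξ' = mt C₁ η ξ' ∈ {0, 1}` (GCL), so `mt C η θ = ∑ m ξ' * mt C ξ' θ`, and by GOU (`L = C₁`) and GC1 for `orb θ θ'`: `mt C η θ - mt C η θ' = ε θ * (m (ξ θ) - m (ξ θ'))`: `0`, `1` or `-1`.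
(2) If both differences are not `0` there are `θ₃ ∈ {θ₁, θ₁'}`, `θ₄ ∈ {θ₂, θ₂'}` with `m (ξ θ₃) = 1 = m (ξ θ₄)`; GCL: `ξ θ₄ = cjF n (ξ θ₃)`, `n ∈ N₁`. `ξ θ₃` has a unit class with `Zg = Z`, so `ξ θ₄` has one with `Zg = cjS n Z` (NUB (2), ZGP (1)), and one with `Zg = Z`: ZNU (1) in `C₁`: `cjS n Z = cjS c Z`, `c ∈ C₁`, `h = c⁻¹ n ∈ nz Z`, `ξ θ₄ = cjF c (cjF h (ξ θ₃)) = cjF h (ξ θ₃)` (a class function of `C₁`)
`= ξ (cjF h θ₃)` (GEV), so `θ₄ = cjF a (cjF h θ₃)`, `a ∈ nz Z` (GC1). `orb (cjF (a h) θ₁) θ₂`: GOB. -/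
def GQQ_stmt : Prop :=
  ∀ (p e m t : ℕ) (M : Ideal (integralClosure ℤ ℂ)), Setup p M → ∀ (G : Type) [Group G] [Finite G] (χ : G → ℂ) (Z : Subgroup G) (z x : G),
    ZD p e m t M χ Z z x → ∀ η ∈ GS p e m M χ (nz (Eg p e z)) Z, ∀ θ₁ ∈ GS p e m M χ (cz Z) Z, ∀ θ₁' ∈ GS p e m M χ (cz Z) Z, orb Z t θ₁ θ₁' →
    (mt (cz Z) η θ₁ - mt (cz Z) η θ₁' = 0 ∨ mt (cz Z) η θ₁ - mt (cz Z) η θ₁' = 1 ∨ mt (cz Z) η θ₁ - mt (cz Z) η θ₁' = -1) ∧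
    ∀ θ₂ ∈ GS p e m M χ (cz Z) Z, ∀ θ₂' ∈ GS p e m M χ (cz Z) Z, orb Z t θ₂ θ₂' → mt (cz Z) η θ₁ ≠ mt (cz Z) η θ₁' →
      mt (cz Z) η θ₂ ≠ mt (cz Z) η θ₂' → ∃ h ∈ nz Z, orb Z t (cjF h θ₁) θ₂

/-! ## 7. The number of all characters -/

/-- **GKN** (short; from PPT, BRY, B2). `k(B)` by subsections. Proof: `|N| * |Bl| = ∑_{g ∈ N} Sf (Bl M N φ) g g` (B2: `∑_g ψ g * ψ g⁻¹ = |N|`); PPT, BRY; `∑_{v} Sf T v v = |K| ∑_{η ∈ T} EE p K η η` for `K = Cz N y` (definition of `EE`). -/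
def GKN_stmt : Prop :=
  ∀ (p : ℕ) (M : Ideal (integralClosure ℤ ℂ)), Setup p M → ∀ (G : Type) [Group G] [Finite G] (N : Subgroup G) (φ : G → ℂ),
    (Nat.card N : ℂ) * ((Bl M N φ).ncard : ℂ) =
      ∑ᶠ y ∈ {y : G | y ∈ N ∧ PEl p y}, (Nat.card (Cz N y) : ℂ) * ∑ᶠ η ∈ Bq M N (Cz N y) φ, EE p (Cz N y) η η

/-- **GKQ** (short to medium; from EXB, TRN, NUH, NUE, NUB, NEG, SYL). `N = nz E'`, `K = Cz N y`. (1) `⊆`: `η ∈ IrrOn K`, `SB M N η φ`, `φ ∈ BE`: `SB M ⊤ η χ` (TRN); the unit class `(z₁, x₁)` of `φ`, `Eg z₁ = E'`; NUH (`L = N`): `Ucl K η (l z₁ l⁻¹) _`, `l ∈ N`, `Eg = cjS l E' = E'`. `⊇` and (2): `η ∈ BE .. K E' χ`. EXB for `N`, `Q = zpowers y` (`K = N ⊓ cz (zpowers y)`): `φ' ∈ IrrOn N`, `SB M N η φ'`; `SB M ⊤ φ' χ` (TRN).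
NUH from `⊤` to `N`: `Ucl N φ' (g z g⁻¹) _`; NUH from `N` to `K`: `Ucl K η (l g z (l g)⁻¹) _`, `l ∈ N`; NUE in `K`: `Eg (l g z (l g)⁻¹) = cjS k E' = E'` (`k ∈ K ≤ nz E'`), so `Eg (g z g⁻¹) = cjS l⁻¹ E' = E'`: `φ' ∈ BE .. N E' χ`. For (1): `φ' ` and `φ` are in the same block by NQU (`L = ⊤`, `⊤ ⊓ nz E' = nz E'`). (3) the unit class `(z', x')` of `η` in `K`: `E' = Eg z' ≤ K` (NEG (2)) commutes with `y`: `y ∈ cz E' ≤ nz E'`. -/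
def GKQ_stmt : Prop :=
  ∀ (p e m : ℕ) (M : Ideal (integralClosure ℤ ℂ)), Setup p M → m < e → ∀ (G : Type) [Group G] [Finite G],
    ∀ χ ∈ Irr G, ∀ z x : G, Ucl p e m M (⊤ : Subgroup G) χ z x → ∀ (E' : Subgroup G) (y : G), PEl p y →
    (y ∈ nz E' → ∀ φ ∈ BE p e m M (⊤ : Subgroup G) (nz E') E' χ,
      Bq M (nz E') (Cz (nz E') y) φ = BE p e m M (⊤ : Subgroup G) (Cz (nz E') y) E' χ) ∧
    (y ∈ nz E' → ∀ η ∈ BE p e m M (⊤ : Subgroup G) (Cz (nz E') y) E' χ, ∃ φ ∈ BE p e m M (⊤ : Subgroup G) (nz E') E' χ, SB M (nz E') η φ) ∧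
    ∀ η ∈ BE p e m M (⊤ : Subgroup G) (Cz (⊤ : Subgroup G) y ⊓ nz E') E' χ, y ∈ nz E'

/-- **TDC** (short to medium; COPY NTC, grep `theorem NTC`; from NUF, NUE, NBC (proof of (1)), CJG, NEG, FEQ, B2). Sum over all `E'` with an arbitrary weight `W` which is invariant under conjugation. Proof: as NTC: if the term for `E'` is not `0` then `E' = cjS l E`, `l ∈ L`; `η ↦ cjF l η` is a bijection from `BE p e m M L (L ⊓ nz E) E ψ` onto `BE p e m M L (L ⊓ nz E') E' ψ`, `L ⊓ nz E' = cjS l (L ⊓ nz E)`. -/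
def TDC_stmt : Prop :=
  ∀ (p e m : ℕ) (M : Ideal (integralClosure ℤ ℂ)), Setup p M → m < e → ∀ (G : Type) [Group G] [Finite G] (L : Subgroup G),
    ∀ ψ ∈ IrrOn L, ∀ z x : G, Ucl p e m M L ψ z x → ∀ W : Subgroup G → (G → ℂ) → ℂ, (∀ l ∈ L, ∀ K η, W (cjS l K) (cjF l η) = W K η) →
    ∑ᶠ E' : Subgroup G, (Nat.card (L ⊓ nz E' : Subgroup G) : ℂ) * ∑ᶠ η ∈ BE p e m M L (L ⊓ nz E') E' ψ, W (L ⊓ nz E') η =
      (Nat.card L : ℂ) * ∑ᶠ η ∈ BE p e m M L (L ⊓ nz (Eg p e z)) (Eg p e z) ψ, W (L ⊓ nz (Eg p e z)) η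

/-- **GKE** (short to medium; from GKN, GKQ, NLC, NQU, TDC, TPR, NEG, FEQ, B2). `k(B) = k(BE)`. Proof: GKN for `N = ⊤`, `φ = χ`: `|G| k(B) = ∑_y |Cz ⊤ y| * LL p M χ (Cz ⊤ y)` over the `p`-elements (`Bq M ⊤ K χ = Blk M χ K`: TPR; definition of `LL`). NLC for `N = Cz ⊤ y` (hypothesis): `= ∑_y ∑_{E'} |Cz ⊤ y ⊓ nz E'| * lE p e m M ⊤ (Cz ⊤ y ⊓ nz E') E' χ`. Exchange. For fixed `E'`: the terms with `y ∉ nz E'` are `0` (GKQ (3)), and for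
`y ∈ nz E'` `Cz ⊤ y ⊓ nz E' = Cz (nz E') y`. If `BE .. (nz E') E' χ` is empty all terms are `0` (GKQ (2)). Otherwise take `φ` in it: `BE .. (nz E') E' χ = Bl M (nz E') φ` (NQU for `L = ⊤`), GKN for `N = nz E'` and GKQ (1): the sum over `y` is `|nz E'| * |BE .. (nz E') E' χ|`. TDC for `L = ⊤`, `W = 1` (`⊤ ⊓ nz E' = nz E'`): the sum over `E'` is `|G| * |BE .. (nz E) E χ|`. -/
def GKE_stmt : Prop :=
  ∀ (p e m : ℕ) (M : Ideal (integralClosure ℤ ℂ)), Setup p M → m < e → ∀ (G : Type) [Group G] [Finite G],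
    ∀ χ ∈ Irr G, ∀ z x : G, Ucl p e m M (⊤ : Subgroup G) χ z x → (∀ N : Subgroup G, MNc p e m M N) →
    (Bl M (⊤ : Subgroup G) χ).ncard = (BE p e m M (⊤ : Subgroup G) (nz (Eg p e z)) (Eg p e z) χ).ncard

/-! ## 8. Every `d` -/

/-- The claim for the group `G`: the numbers of characters of defect `d` agree. -/
def NDc (p e m : ℕ) (M : Ideal (integralClosure ℤ ℂ)) (d : ℤ) (G : Type) [Group G] : Prop :=
  ∀ χ ∈ Irr G, ∀ z x : G, Ucl p e m M (⊤ : Subgroup G) χ z x →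
    {ψ : G → ℂ | ψ ∈ Bl M (⊤ : Subgroup G) χ ∧ Defect p (⊤ : Subgroup G) ψ d}.ncard =
      {η : G → ℂ | η ∈ BE p e m M (⊤ : Subgroup G) (nz (Eg p e z)) (Eg p e z) χ ∧ Defect p (nz (Eg p e z)) η d}.ncard

/-- **GKD** (medium; from KCO, GAC, GSY, GVF, GNV, GDF, GQQ, GKE, GBC, NXU, NUF, NQU, NUB, NEG, ZGP, TEX, TPR, B2). THE MAIN THEOREM. Proof: `(z₁, x₁)` the given unit class, `E = Eg z₁`, `N₁ = nz E`. NXU (`L = ⊤`): `η₀ ∈ BE .. N₁ E χ` with `Ucl N₁ η₀ z x`, `Eg z = E`; NUF (`⊤ ⊓ nz E = nz E`): `Ucl ⊤ χ z x`. `Z = Zg p e m z`, `t` from TEX: `ZD p e m t M χ Z z x`. `C = cz Z ≤ nz Z ≤ N₁`. `GS ⊤ = Bl M ⊤ χ` (GBC (2));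
`GS N₁ = BE .. N₁ E χ`: `BE = Bl M N₁ η₀` (NQU), so all members have the unit class `(z, x)` (NUB (1)), `Zg z = Z`; conversely `Zg z' = Z` implies `Eg z' = E` (ZGP (4)). So for `L ∈ {⊤, N₁}` all `ψ ∈ GS L` have the unit class `(z, x)` in `L`, and `C_G(z x) ≤ C ≤ L` (ZGP (6)). `A₀ = nz Z = nz Z ⊓ ⊤ = nz Z ⊓ N₁`: GAC: `act`, `Acn`; KCO: `Φ`, `κ`. GSY for `L = ⊤` and `L = N₁`: `D`, `Sys`; not `0` by GNV. KCO for `N₁` with GQQ: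
`|GS N₁| = Φ`. GKE: `|GS ⊤| = |GS N₁| = Φ`. `F R = - |Z →* ℂˣ|⁻¹ ∑_{θ ∈ X} ∑_ν θ (z x) * lam ν (z x) * R θ (st ν θ)` for `R : X → X → ℤ`; `P R = UM M (p ^ (d - v) * F R)`, `v` the exponent of `p` in `|C_G(z x)|`; `F (-R) = - F R`, so `P (-R) ↔ P R`. GVF: `F (D ψ) = ψ (z x)`; GDF: `P (D ψ) ↔ Defect p L ψ d`. So both numbers are `κ P`. -/
def GKD_stmt : Prop :=
  ∀ (p e m : ℕ) (M : Ideal (integralClosure ℤ ℂ)), Setup p M → 2 * m + 5 ≤ e → ∀ (G : Type) [Group G] [Finite G],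
    (∀ N : Subgroup G, MNc p e m M N) → ∀ d : ℤ, NDc p e m M d G

open Classical in
/-- **TDI** (short to medium; COPY NTI, grep `theorem NTI`; from NTK, TR1, TR2, TR3, TPR, NEG, B2). The claim for the type `N` in terms of functions on `G`. `Defect p (H.subgroupOf N) (rN N η) d ↔ Defect p H η d` for `H ≤ N` (`Nat.card (H.subgroupOf N) = Nat.card H`, `rN N η 1 = η 1`). -/
def TDI_stmt : Prop :=
  ∀ (p e m : ℕ) (M : Ideal (integralClosure ℤ ℂ)), Setup p M → ∀ (G : Type) [Group G] [Finite G] (N : Subgroup G) (d : ℤ), NDc p e m M d N →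
    ∀ φ ∈ IrrOn N, ∀ z x : G, Ucl p e m M N φ z x →
    ∑ᶠ ψ ∈ Bl M N φ, (if Defect p N ψ d then (1 : ℂ) else 0) =
      ∑ᶠ η ∈ BE p e m M N (N ⊓ nz (Eg p e z)) (Eg p e z) φ, (if Defect p (N ⊓ nz (Eg p e z)) η d then (1 : ℂ) else 0)

open Classical in
/-- **TDL** (medium; COPY NLC, grep `theorem NLC`; from XPB of `helper97/NA/SpecE` (stated there as `XPB_stmt`; import that file, or copy the statement: NPA without the condition that the sums are not `0`), TDI, TDC, NUH, NUX, NBC, TRN, TPR, B2). The characters of defect `d` of the subgroup `N`. Proof: as NLC with `w φ = [Defect p N φ d]`, `v (E', η) = |N ⊓ nz E'| * [Defect p (N ⊓ nz E') η d]`; in place of NTC use TDC for `W K η = [Defect p K η d]`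
(invariant: `|cjS l K| = |K|`, `cjF l η 1 = η 1`). -/
def TDL_stmt : Prop :=
  ∀ (p e m : ℕ) (M : Ideal (integralClosure ℤ ℂ)), Setup p M → m < e → ∀ (G : Type) [Group G] [Finite G],
    ∀ χ ∈ Irr G, ∀ z x : G, Ucl p e m M (⊤ : Subgroup G) χ z x → ∀ (N : Subgroup G) (d : ℤ), NDc p e m M d N →
    (Nat.card N : ℂ) * ((BlkD p M χ N d).ncard : ℂ) = ∑ᶠ E' : Subgroup G, (Nat.card (N ⊓ nz E' : Subgroup G) : ℂ) *
      ∑ᶠ η ∈ BE p e m M (⊤ : Subgroup G) (N ⊓ nz E') E' χ, (if Defect p (N ⊓ nz E') η d then (1 : ℂ) else 0)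

/-- **TDF** (short to medium; from TDL, NTG, FT0, FNO, NUH, NUE, NEG, FEQ; compare NTM). The alternating sum for `d` is zero. Proof: FT0: `|G| * altSum` is the sum over `NCh p ⊤ ⊥ C` of `(-1) ^ (|C| + 1) |nrm C| |BlkD (nrm C) d|`, by FNO (`L = N = ⊤`, `P = ⊥`, `g N = |N| * (BlkD p M χ N d).ncard`) the sum over `PCh p ⊤ ⊥ C`. Cast to `ℂ`, TDL for `N = nrm C`, exchange the sums over `C` and `E'`. For fixed `E'`: if some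
`BE p e m M ⊤ (nrm C ⊓ nz E') E' χ` is not empty then `E'` is a `p`-group, `E' ≤ nrm C` (NEG (2)), and `E' = cjS g (Eg z) ≠ ⊥` (NUH, NUE, NEG (6)), so `¬ E' ≤ ⊥`. The terms with `¬ E' ≤ nrm C` are `0`; the others sum to `0` by NTG (`R = ⊥`, `F K = |K| * ∑_{η ∈ BE .. K E' χ} [Defect p K η d]`, `nz E' ⊓ nrm C`). -/
def TDF_stmt : Prop :=
  ∀ (p e m : ℕ) (M : Ideal (integralClosure ℤ ℂ)), Setup p M → m < e → ∀ (G : Type) [Group G] [Finite G],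
    ∀ χ ∈ Irr G, ∀ z x : G, Ucl p e m M (⊤ : Subgroup G) χ z x → IsOp p (⊤ : Subgroup G) ⊥ → ∀ d : ℤ, (∀ N : Subgroup G, NDc p e m M d N) →
    altSum (trivE G) p M χ d ⊤ = 0

/-- **NDQ** (short; from TDF, GKD, NMP, DG6, CLS, TPR, NEG, SYL; COPY the proof of NFQ, grep `theorem NFQ`). The final statement in terms of the defect group. (`NMP` gives `MNc` for all groups; `GKD` for the types `N`, whose subgroups are again groups.) -/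
def NDQ_stmt : Prop :=
  ∀ (p e m : ℕ) (M : Ideal (integralClosure ℤ ℂ)), Setup p M → 2 * m + bz p + m / 2 ≤ e → 2 * m + 5 ≤ e → ∀ (G : Type) [Group G] [Finite G],
    ∀ χ ∈ Irr G, ∀ D : Subgroup G, Pool.Agent.MAP.DefectGroup p M χ D → Nat.card D ≤ p ^ (e + m) →
    ∀ z ∈ D, (∀ d ∈ D, z * d = d * z) → orderOf z = p ^ e → IsOp p (⊤ : Subgroup G) ⊥ → ∀ d : ℤ, altSum (trivE G) p M χ d ⊤ = 0

end Pool.Agent.ND
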