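import Pool.Agent.helper37.ND.Spec
import Pool.Agent.helper9.GR.PPT

/-!
# MP_baa4d7_al, THEOREM ND, row GKR: the kernel on the elements `g` with `Z ≤ ⟨g⟩`
-/

set_option autoImplicit false

namespace Pool.Agent.ND

open Pool.Agent.helper58.DC Pool.Agent.DI Pool.Agent.GR Pool.Agent.OB Pool.Agent.DR Pool.Agent.FI Pool.Agent.FI3 Pool.Agent.FI4 Pool.Agent.FI4I Pool.Agent.LE Pool.Agent.L5 Pool.Agent.NAB

/-- The decomposition into the `p`-part and the `p`-regular part. -/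
theorem GKR_dec {p : ℕ} (hp : p.Prime) {G : Type} [Group G] [Finite G] (a : G) :
    ∃ u v : G, PEl p u ∧ PReg p v ∧ u * v = a ∧ Commute u v ∧ u ∈ Subgroup.zpowers a ∧
      v ∈ Subgroup.zpowers a ∧
      ∀ Z : Subgroup G, IsPGroup p Z → Z ≤ Subgroup.zpowers a → Z ≤ Subgroup.zpowers u := by
  have hn : orderOf a ≠ 0 := (orderOf_pos a).ne'
  obtain ⟨e, f, h1, h2, h3⟩ := PPT_ex (n := orderOf a) hp hn
  have hab : p ^ (orderOf a).factorization p * (orderOf a / p ^ (orderOf a).factorization p) =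
      orderOf a := Nat.ordProj_mul_ordCompl_eq_self _ p
  have hb : ¬ p ∣ orderOf a / p ^ (orderOf a).factorization p := Nat.not_dvd_ordCompl hp hn
  generalize hk : (orderOf a).factorization p = k at hab hb
  generalize hbb : orderOf a / p ^ k = b at hab hb
  have hbn : b ∣ orderOf a := ⟨p ^ k, by rw [← hab]; ring⟩
  have hkn : p ^ k ∣ orderOf a := ⟨b, hab.symm⟩
  have he : b ∣ e := (Nat.modEq_zero_iff_dvd).1 (h2 b hbn hb).1
  have hf : p ^ k ∣ f := (Nat.modEq_zero_iff_dvd).1 (h1 (p ^ k) hkn ⟨k, dvd_rfl⟩).2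
  refine ⟨a ^ e, a ^ f, ⟨k, ?_⟩, ?_, ?_, ?_, ?_, ?_, ?_⟩
  · rw [← pow_mul]
    refine orderOf_dvd_iff_pow_eq_one.1 ?_
    rw [← hab, mul_comm e]
    exact mul_dvd_mul_left _ he
  · intro hd
    apply hb
    refine hd.trans ?_
    rw [orderOf_dvd_iff_pow_eq_one, ← pow_mul]
    refine orderOf_dvd_iff_pow_eq_one.1 ?_
    rw [← hab]
    exact mul_dvd_mul_right hf _
  · rw [← pow_add]
    calc a ^ (e + f) = a ^ 1 := (pow_eq_pow_iff_modEq).2 h3
      _ = a := pow_one a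
  · exact ((Commute.refl a).pow_pow e f)
  · exact Subgroup.pow_mem _ (Subgroup.mem_zpowers a) e
  · exact Subgroup.pow_mem _ (Subgroup.mem_zpowers a) f
  · intro Z hZ hle z hz
    obtain ⟨j, hj⟩ := Subgroup.mem_zpowers_iff.1 (hle hz)
    have h4 : orderOf z ∣ orderOf a := by
      rw [orderOf_dvd_iff_pow_eq_one, ← hj, ← zpow_natCast, ← zpow_mul, mul_comm, zpow_mul,
        zpow_natCast, pow_orderOf_eq_one, one_zpow]
    obtain ⟨i, hi⟩ := hZ ⟨z, hz⟩
    have h5 : z ^ p ^ i = 1 := by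
      have := congrArg Subtype.val hi
      simpa using this
    have h6 : z ^ e = z ^ 1 := (pow_eq_pow_iff_modEq).2 (h1 (orderOf z) h4 ⟨i, orderOf_dvd_of_pow_eq_one h5⟩).1
    rw [pow_one] at h6
    rw [← h6, ← hj]
    refine Subgroup.mem_zpowers_iff.2 ⟨j, ?_⟩
    rw [← zpow_natCast, ← zpow_natCast, ← zpow_mul, ← zpow_mul, mul_comm]

/-- A union of blocks as a weighted sum over its members. -/
theorem GKR_sum (hB2 : B2_stmt) {M : Ideal (integralClosure ℤ ℂ)} {G : Type} [Group G] [Finite G]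
    (L K : Subgroup G) {T : Set (G → ℂ)} (hT : BC M L T) (F : (G → ℂ) → ℂ) :
    ∑ᶠ θ ∈ T, ((Bl M L θ).ncard : ℂ)⁻¹ * ∑ᶠ η ∈ Bq M L K θ, F η =
      ∑ᶠ η ∈ {η | η ∈ IrrOn K ∧ ∃ ψ ∈ T, SB M L η ψ}, F η := by
  classical
  have hfK : (IrrOn K).Finite := (hB2 G K).1
  have hfL : (IrrOn L).Finite := (hB2 G L).1
  have hfT : T.Finite := hfL.subset hT.sub
  have hfq : ∀ θ, (Bq M L K θ).Finite := fun θ => hfK.subset fun η h => h.1
  have hf1 : {η | η ∈ IrrOn K ∧ ∃ ψ ∈ T, SB M L η ψ}.Finite := hfK.subset fun η h => h.1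
  have e1 : ∀ θ, ∑ᶠ η ∈ Bq M L K θ, F η = ∑ η ∈ hfK.toFinset, if SB M L η θ then F η else 0 := by
    intro θ
    rw [finsum_mem_eq_finite_toFinset_sum _ (hfq θ), ← Finset.sum_filter]
    refine Finset.sum_congr ?_ fun _ _ => rfl
    ext η
    simp [Bq]
  rw [finsum_mem_eq_finite_toFinset_sum _ hfT, finsum_mem_eq_finite_toFinset_sum _ hf1]
  simp only [e1, Finset.mul_sum]
  rw [Finset.sum_comm]
  have e2 : hf1.toFinset = hfK.toFinset.filter (fun η => ∃ ψ ∈ T, SB M L η ψ) := by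
    ext η
    simp
  rw [e2, Finset.sum_filter]
  refine Finset.sum_congr rfl fun η hη => ?_
  by_cases h : ∃ ψ ∈ T, SB M L η ψ
  · rw [if_pos h]
    obtain ⟨ψ, hψ, hs⟩ := h
    have e3 : ∀ θ ∈ hfT.toFinset, (((Bl M L θ).ncard : ℂ)⁻¹ * if SB M L η θ then F η else 0) =
        if θ ∈ Bl M L ψ then ((Bl M L ψ).ncard : ℂ)⁻¹ * F η else 0 := by
      intro θ hθ
      have hθT : θ ∈ T := by simpa using hθ
      by_cases h2 : SB M L η θ
      · have h3 : θ ∈ Bl M L ψ := ⟨hT.sub hθT, h2.symm.trans hs⟩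
        have h4 : Bl M L θ = Bl M L ψ := by
          ext φ
          exact ⟨fun h => ⟨h.1, h.2.trans h3.2⟩, fun h => ⟨h.1, h.2.trans h3.2.symm⟩⟩
        rw [if_pos h2, if_pos h3, h4]
      · have h3 : θ ∉ Bl M L ψ := fun h => h2 (hs.trans h.2.symm)
        rw [if_neg h2, if_neg h3, mul_zero]
    rw [Finset.sum_congr rfl e3, ← Finset.sum_filter]
    have e4 : hfT.toFinset.filter (fun θ => θ ∈ Bl M L ψ) = (hfL.subset (fun φ (h : φ ∈ Bl M L ψ) => h.1)).toFinset := by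
      ext θ
      simp only [Finset.mem_filter, Set.Finite.mem_toFinset]
      exact ⟨fun h => h.2, fun h => ⟨hT.closed ψ hψ θ h.1 h.2.symm, h⟩⟩
    rw [e4, Finset.sum_const, ← Set.ncard_eq_toFinset_card (Bl M L ψ) (hfL.subset (fun φ (h : φ ∈ Bl M L ψ) => h.1)),
      nsmul_eq_mul, ← mul_assoc, mul_inv_cancel₀, one_mul]
    have h5 : (Bl M L ψ).ncard ≠ 0 := by
      rw [Ne, Set.ncard_eq_zero (hfL.subset (fun φ (h : φ ∈ Bl M L ψ) => h.1))]
      exact (Set.nonempty_iff_ne_empty.1 ⟨ψ, hT.sub hψ, SB.refl _ _⟩)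
    exact_mod_cast h5
  · rw [if_neg h]
    refine Finset.sum_eq_zero fun θ hθ => ?_
    have hθT : θ ∈ T := by simpa using hθ
    rw [if_neg fun h2 => h ⟨θ, hθT, h2⟩, mul_zero]

/-- Brauer's second main theorem for a union of blocks. -/
theorem GKR_br (hBRY : BRY_stmt) (hB2 : B2_stmt) {p : ℕ} {M : Ideal (integralClosure ℤ ℂ)} (hM : Setup p M)
    {G : Type} [Group G] [Finite G] {L : Subgroup G} {T : Set (G → ℂ)} (hT : BC M L T) {u : G} (hu : u ∈ L)
    (hpu : PEl p u) {w w' : G} (hw : w ∈ Cz L u) (hw' : w' ∈ Cz L u) (hrw : PReg p w) (hrw' : PReg p w') :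
    Sf T (u * w) (u * w') = Sf {η | η ∈ IrrOn (Cz L u) ∧ ∃ ψ ∈ T, SB M L η ψ} w w' := by
  have h1 := GKR_sum hB2 L L hT fun η => η (u * w) * η (u * w')⁻¹
  have h2 := GKR_sum hB2 L (Cz L u) hT fun η => η w * η w'⁻¹
  have h3 : {η | η ∈ IrrOn L ∧ ∃ ψ ∈ T, SB M L η ψ} = T := by
    ext η
    exact ⟨fun ⟨h, ψ, hψ, hs⟩ => hT.closed ψ hψ η h hs.symm, fun h => ⟨hT.sub h, η, h, SB.refl _ _⟩⟩
  rw [h3] at h1
  unfold Sf
  rw [← h1, ← h2]
  refine finsum_mem_congr rfl fun θ _ => ?_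
  have h4 := hBRY p M hM G L u hu hpu θ w hw w' hw' hrw hrw'
  unfold Sf at h4
  have h5 : Bl M L θ = Bq M L L θ := rfl
  rw [← h4, h5]

/-- The union of the blocks of `C` below `T` is a union of blocks. -/
theorem GKR_bc (hTRN : TRN_stmt) (hB2 : B2_stmt) {M : Ideal (integralClosure ℤ ℂ)}
    {G : Type} [Group G] [Finite G] {C L : Subgroup G} (hCL : C ≤ L) (T : Set (G → ℂ)) :
    BC M C {φ | φ ∈ IrrOn C ∧ ∃ ψ ∈ T, SB M L φ ψ} := by
  refine ⟨fun φ h => h.1, fun φ hφ φ' hφ' hs => ⟨hφ', ?_⟩⟩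
  obtain ⟨h1, ψ, hψ, h2⟩ := hφ
  refine ⟨ψ, hψ, ?_⟩
  have h3 : SB M C φ φ' := hs
  have h4 := (hTRN G M C L hCL φ' φ ψ ((hB2 G C).2 φ' hφ').2.2.2.1 ((hB2 G C).2 φ h1).2.2.2.1 h3.symm).1
  exact h4.trans h2

/-- The kernels of `L` and of `C`, `C_G(u) ≤ C ≤ L`, agree on the section of `u`. -/
theorem GKR_cl (hBRY : BRY_stmt) (hEXB : EXB_stmt) (hTRN : TRN_stmt) (hSYL : SYL_stmt) (hB2 : B2_stmt) {p : ℕ}
    {M : Ideal (integralClosure ℤ ℂ)} (hM : Setup p M)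
    {G : Type} [Group G] [Finite G] {C L : Subgroup G} (hCL : C ≤ L) {T : Set (G → ℂ)} (hT : BC M L T) {u : G}
    (hpu : PEl p u) (huC : Subgroup.centralizer {u} ≤ C)
    {w w' : G} (hw : w * u = u * w) (hw' : w' * u = u * w') (hrw : PReg p w) (hrw' : PReg p w') :
    Sf T (u * w) (u * w') = Sf {φ | φ ∈ IrrOn C ∧ ∃ ψ ∈ T, SB M L φ ψ} (u * w) (u * w') := by
  have hp : p.Prime := hM.pr
  have : Fact p.Prime := ⟨hp⟩
  have huc : ∀ w : G, w * u = u * w → w ∈ Subgroup.centralizer {u} := by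
    intro w h
    rw [Subgroup.mem_centralizer_iff]
    intro y hy
    rw [Set.mem_singleton_iff.1 hy]
    exact h.symm
  have huu : u ∈ C := huC (huc u rfl)
  have hKC : Cz C u = Subgroup.centralizer {u} := by
    unfold Cz
    exact inf_eq_right.2 huC
  have hKL : Cz L u = Subgroup.centralizer {u} := by
    unfold Cz
    exact inf_eq_right.2 (huC.trans hCL)
  have hT' : BC M C {φ | φ ∈ IrrOn C ∧ ∃ ψ ∈ T, SB M L φ ψ} := GKR_bc hTRN hB2 hCL T
  rw [GKR_br hBRY hB2 hM hT (hCL huu) hpu (by rw [hKL]; exact huc w hw) (by rw [hKL]; exact huc w' hw') hrw hrw',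
    GKR_br hBRY hB2 hM hT' huu hpu (by rw [hKC]; exact huc w hw) (by rw [hKC]; exact huc w' hw') hrw hrw', hKL, hKC]
  congr 1
  ext η
  constructor
  · rintro ⟨h1, ψ, hψ, h2⟩
    have hz : Subgroup.zpowers u ≤ C := Subgroup.zpowers_le.2 huu
    have h3 : C ⊓ cz (Subgroup.zpowers u) = Subgroup.centralizer {u} := by
      rw [(hSYL p G).2.2.2.2.2.2.1 u]
      exact inf_eq_right.2 huC
    obtain ⟨φ, hφ, h4⟩ := hEXB p M hM G C (Subgroup.zpowers u) ((hSYL p G).2.2.2.2.2.2.2.1 u hpu) hz η (by rw [h3]; exact h1)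
    refine ⟨h1, φ, ⟨hφ, ψ, hψ, ?_⟩, h4⟩
    have h5 : ∀ x, x ∉ C → η x = 0 := fun x hx => ((hB2 G (Subgroup.centralizer {u})).2 η h1).2.2.2.1 x fun h => hx (huC h)
    have h6 := (hTRN G M C L hCL φ η ψ ((hB2 G C).2 φ hφ).2.2.2.1 h5 h4.symm).1
    exact h6.trans h2
  · rintro ⟨h1, φ, ⟨hφ, ψ, hψ, h2⟩, h3⟩
    refine ⟨h1, ψ, hψ, ?_⟩
    have h5 : ∀ x, x ∉ C → η x = 0 := fun x hx => ((hB2 G (Subgroup.centralizer {u})).2 η h1).2.2.2.1 x fun h => hx (huC h)
    have h6 := (hTRN G M C L hCL η φ ψ h5 ((hB2 G C).2 φ hφ).2.2.2.1 h3).1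
    exact h6.trans h2

/-- A cyclic group has at most one subgroup of a given order. -/
theorem GKR_cyc {G : Type} [Group G] [Finite G] {P Q : Subgroup G} {g : G} (hP : P ≤ Subgroup.zpowers g)
    (hQ : Q ≤ Subgroup.zpowers g) (h : Nat.card P = Nat.card Q) : P = Q := by
  classical
  have : Fintype (Subgroup.zpowers g) := Fintype.ofFinite _
  have key : ∀ R : Subgroup G, R ≤ Subgroup.zpowers g → ∀ y : G,
      y ∈ R ↔ y ∈ Subgroup.zpowers g ∧ y ^ Nat.card R = 1 := by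
    intro R hR
    have hc : IsCyclic (Subgroup.zpowers g) := inferInstance
    have h1 := hc.card_pow_eq_one_le (n := Nat.card R) (Nat.card_pos)
    have h2 : ((R.subgroupOf (Subgroup.zpowers g) : Subgroup (Subgroup.zpowers g)) : Set (Subgroup.zpowers g)).toFinset ⊆
        Finset.univ.filter (fun a : Subgroup.zpowers g => a ^ Nat.card R = 1) := by
      intro y hy
      have hy' : (y : G) ∈ R := by
        have := Set.mem_toFinset.1 hy
        exact Subgroup.mem_subgroupOf.1 this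
      simp only [Finset.mem_filter, Finset.mem_univ, true_and]
      apply Subtype.ext
      have h3 : (⟨(y : G), hy'⟩ : R) ^ Nat.card R = 1 := pow_card_eq_one'
      have h4 : (y : G) ^ Nat.card R = 1 := congrArg Subtype.val h3
      exact h4
    have h3 : (((R.subgroupOf (Subgroup.zpowers g) : Subgroup (Subgroup.zpowers g)) : Set (Subgroup.zpowers g)).toFinset).card = Nat.card R := by
      rw [Set.toFinset_card, ← Nat.card_eq_fintype_card]
      exact Nat.card_congr (Subgroup.subgroupOfEquivOfLe hR).toEquiv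
    have h4 := Finset.eq_of_subset_of_card_le h2 (by rw [h3]; exact h1)
    intro y
    constructor
    · intro hy
      refine ⟨hR hy, ?_⟩
      have h3 : (⟨(y : G), hy⟩ : R) ^ Nat.card R = 1 := pow_card_eq_one'
      exact congrArg Subtype.val h3
    · rintro ⟨hy, h5⟩
      have h6 : (⟨y, hy⟩ : Subgroup.zpowers g) ∈ Finset.univ.filter (fun a : Subgroup.zpowers g => a ^ Nat.card R = 1) := by
        simp only [Finset.mem_filter, Finset.mem_univ, true_and]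
        apply Subtype.ext
        simpa using h5
      rw [← h4] at h6
      exact Subgroup.mem_subgroupOf.1 (Set.mem_toFinset.1 h6)
  ext y
  rw [key P hP, key Q hQ, h]

theorem GKR (hBRY : BRY_stmt) (hBR0 : BR0_stmt) (hSFC : SFC_stmt) (hEXB : EXB_stmt) (hTRN : TRN_stmt)
    (hSYL : SYL_stmt) (hB2 : B2_stmt) : GKR_stmt := by
  intro p M hM G _ _ Z L hZp hZc hCL T hT a haL b hbL hZa hZb
  classical
  obtain ⟨u, v, hpu, hrv, huv, hcuv, huz, hvz, huZ⟩ := GKR_dec hM.pr a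
  obtain ⟨u', v', hpu', hrv', huv', hcuv', huz', hvz', huZ'⟩ := GKR_dec hM.pr b
  have hZu : Z ≤ Subgroup.zpowers u := huZ Z hZp hZa
  have hZu' : Z ≤ Subgroup.zpowers u' := huZ' Z hZp hZb
  have hcen : ∀ w : G, Z ≤ Subgroup.zpowers w → ∀ c : G, c * w = w * c → c ∈ cz Z := by
    intro w hw c hc
    rw [Subgroup.mem_centralizer_iff]
    intro y hy
    obtain ⟨j, rfl⟩ := Subgroup.mem_zpowers_iff.1 (hw hy)
    have h1 : Commute c w := hc
    exact (h1.zpow_right j).symm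
  have hcl : ∀ w : G, Z ≤ Subgroup.zpowers w → Subgroup.centralizer {w} ≤ cz Z := by
    intro w hw c hc
    refine hcen w hw c ?_
    exact (Subgroup.mem_centralizer_iff.1 hc w rfl).symm
  have hLa : Subgroup.zpowers a ≤ L := Subgroup.zpowers_le.2 haL
  have hLb : Subgroup.zpowers b ≤ L := Subgroup.zpowers_le.2 hbL
  have huC : u ∈ cz Z := hcen u hZu u rfl
  have hvC : v ∈ cz Z := hcen u hZu v hcuv.symm
  have huC' : u' ∈ cz Z := hcen u' hZu' u' rfl
  have hvC' : v' ∈ cz Z := hcen u' hZu' v' hcuv'.symm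
  have hbc := GKR_bc (M := M) hTRN hB2 hCL T
  have hconj : ∀ s : G, s * a * s⁻¹ = (s * u * s⁻¹) * (s * v * s⁻¹) := by
    intro s
    rw [← huv]
    group
  have hcs : ∀ s : G, Commute (s * u * s⁻¹) (s * v * s⁻¹) := by
    intro s
    have h1 : (s * u * s⁻¹) * (s * v * s⁻¹) = s * (u * v) * s⁻¹ := by group
    have h2 : (s * v * s⁻¹) * (s * u * s⁻¹) = s * (v * u) * s⁻¹ := by group
    change _ = _
    rw [h1, h2, hcuv.eq]
  have hps : ∀ s : G, PEl p (s * u * s⁻¹) := by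
    have : Fact p.Prime := ⟨hM.pr⟩
    exact fun s => ((hSYL p G).2.2.2.2.2.2.2.2 u s).2 hpu
  have hrs : ∀ s : G, PReg p (s * v * s⁻¹) := by
    have : Fact p.Prime := ⟨hM.pr⟩
    exact fun s => ((hSYL p G).2.2.2.2.2.2.2.2 v s).1 hrv
  -- the terms on the right
  have hz : ∀ s ∈ nz Z ⊓ L, (∀ h ∈ cz Z, h⁻¹ * (s * u * s⁻¹) * h ≠ u') →
      Sf {φ | φ ∈ IrrOn (cz Z) ∧ ∃ ψ ∈ T, SB M L φ ψ} (s * a * s⁻¹) b = 0 := by
    intro s hs hne
    rw [hconj s, ← huv']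
    exact hBR0 p M hM G (cz Z) _ hbc (s * u * s⁻¹) (cz_conj hs.1 huC) (s * v * s⁻¹) (cz_conj hs.1 hvC) u' huC' v' hvC'
      (hps s) hpu' (hrs s) hrv' (hcs s) hcuv' hne
  by_cases hcon : ∃ l ∈ L, l * u * l⁻¹ = u'
  · obtain ⟨l, hl, hlu⟩ := hcon
    have hlZ : cjS l Z = Z := by
      refine GKR_cyc (g := u') ?_ hZu' ?_
      · intro y hy
        rw [mem_cjS] at hy
        obtain ⟨j, hj⟩ := Subgroup.mem_zpowers_iff.1 (hZu hy)
        refine Subgroup.mem_zpowers_iff.2 ⟨j, ?_⟩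
        rw [← hlu, conj_zpow, hj]
        group
      · exact Nat.card_congr (Subgroup.equivMapOfInjective Z _ (MulAut.conj l).injective).symm.toEquiv
    have hlN : l ∈ nz Z := by
      rw [Subgroup.mem_normalizer_iff]
      intro y
      constructor
      · intro hy
        have : l * y * l⁻¹ ∈ cjS l Z := by
          rw [mem_cjS]
          have : l⁻¹ * (l * y * l⁻¹) * l = y := by group
          rw [this]
          exact hy
        rwa [hlZ] at this
      · intro hy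
        rw [← hlZ, mem_cjS] at hy
        have : l⁻¹ * (l * y * l⁻¹) * l = y := by group
        rwa [this] at hy
    have e1 : Sf T a b = Sf T (l * a * l⁻¹) b := (((hSFC G L T hT.sub).1 a b l hl).1).symm
    have e2 : l * a * l⁻¹ = u' * (l * v * l⁻¹) := by rw [hconj l, hlu]
    have e3 : Sf T (l * a * l⁻¹) b = Sf {φ | φ ∈ IrrOn (cz Z) ∧ ∃ ψ ∈ T, SB M L φ ψ} (l * a * l⁻¹) b := by
      rw [e2, ← huv']
      refine GKR_cl hBRY hEXB hTRN hSYL hB2 hM hCL hT hpu' (hcl u' hZu') ?_ ?_ (hrs l) hrv'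
      · have := hcs l
        rw [hlu] at this
        exact this.symm
      · exact hcuv'.symm
    have e4 : ∀ s ∈ nz Z ⊓ L, Sf {φ | φ ∈ IrrOn (cz Z) ∧ ∃ ψ ∈ T, SB M L φ ψ} (s * a * s⁻¹) b ≠ 0 →
        s ∈ (fun c => c * l) '' (cz Z : Set G) := by
      intro s hs hne
      by_contra hcc
      refine hne (hz s hs fun h hh he => hcc ?_)
      have h1 : l⁻¹ * h⁻¹ * s ∈ cz Z := by
        refine hcen u hZu _ ?_
        have h2 : h⁻¹ * (s * u * s⁻¹) * h = l * u * l⁻¹ := by rw [he, hlu]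
        have h3 : h⁻¹ * s * u = l * u * l⁻¹ * h⁻¹ * s := by
          calc h⁻¹ * s * u = (h⁻¹ * (s * u * s⁻¹) * h) * h⁻¹ * s := by group
            _ = _ := by rw [h2]
        calc l⁻¹ * h⁻¹ * s * u = l⁻¹ * (h⁻¹ * s * u) := by group
          _ = l⁻¹ * (l * u * l⁻¹ * h⁻¹ * s) := by rw [h3]
          _ = u * (l⁻¹ * h⁻¹ * s) := by group
      refine ⟨h * (l * (l⁻¹ * h⁻¹ * s) * l⁻¹), (cz Z).mul_mem hh (cz_conj hlN h1), ?_⟩
      change h * (l * (l⁻¹ * h⁻¹ * s) * l⁻¹) * l = s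
      group
    have e5 : ∀ c ∈ cz Z, Sf {φ | φ ∈ IrrOn (cz Z) ∧ ∃ ψ ∈ T, SB M L φ ψ} (c * l * a * (c * l)⁻¹) b =
        Sf {φ | φ ∈ IrrOn (cz Z) ∧ ∃ ψ ∈ T, SB M L φ ψ} (l * a * l⁻¹) b := by
      intro c hc
      have h1 : c * l * a * (c * l)⁻¹ = c * (l * a * l⁻¹) * c⁻¹ := by group
      rw [h1]
      exact ((hSFC G (cz Z) _ hbc.sub).1 (l * a * l⁻¹) b c hc).1
    have hcN : cz Z ≤ nz Z := by
      intro c hc
      rw [Subgroup.mem_normalizer_iff]
      have h2 := Subgroup.mem_centralizer_iff.1 hc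
      intro y
      constructor
      · intro hy
        have : c * y * c⁻¹ = y := by rw [← h2 y hy]; group
        rw [this]; exact hy
      · intro hy
        have h3 := h2 _ hy
        have : c * y * c⁻¹ = y := by
          have h4 : c * y * c⁻¹ * c = c * (c * y * c⁻¹) := h3
          have h5 : c * y = c * (c * y * c⁻¹) := by rw [← h4]; group
          exact (mul_left_cancel h5).symm
        rwa [this] at hy
    rw [e1, e3]
    have e6 : ∑ᶠ s ∈ ((nz Z ⊓ L : Subgroup G) : Set G), Sf {φ | φ ∈ IrrOn (cz Z) ∧ ∃ ψ ∈ T, SB M L φ ψ} (s * a * s⁻¹) b =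
        ∑ᶠ s ∈ (fun c => c * l) '' (cz Z : Set G), Sf {φ | φ ∈ IrrOn (cz Z) ∧ ∃ ψ ∈ T, SB M L φ ψ} (s * a * s⁻¹) b := by
      refine finsum_mem_inter_support_eq _ _ _ ?_
      ext s
      constructor
      · rintro ⟨h1, h2⟩
        exact ⟨e4 s h1 h2, h2⟩
      · rintro ⟨⟨c, hc, rfl⟩, h2⟩
        exact ⟨⟨(nz Z).mul_mem (hcN hc) hlN, L.mul_mem (hCL hc) hl⟩, h2⟩
    rw [e6, finsum_mem_image (fun c _ c' _ h => mul_right_cancel h)]
    rw [finsum_mem_congr rfl fun c hc => e5 c hc, finsum_mem_eq_finite_toFinset_sum _ (Set.toFinite _), Finset.sum_const,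
      nsmul_eq_mul]
    congr 2
    rw [← Set.ncard_eq_toFinset_card (cz Z : Set G) (Set.toFinite _)]
    exact (Nat.card_coe_set_eq _)
  · have e1 : Sf T a b = 0 := by
      rw [← huv, ← huv']
      refine hBR0 p M hM G L T hT u (hLa huz) v (hLa hvz) u' (hLb huz') v' (hLb hvz') hpu hpu' hrv hrv' hcuv hcuv' ?_
      intro h hh he
      refine hcon ⟨h⁻¹, L.inv_mem hh, ?_⟩
      rw [inv_inv]
      exact he
    rw [e1, mul_zero]
    symm
    refine finsum_mem_eq_zero_of_forall_eq_zero fun s hs => hz s hs fun h hh he => ?_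
    refine hcon ⟨h⁻¹ * s, L.mul_mem (L.inv_mem (hCL hh)) hs.2, ?_⟩
    rw [← he]
    group

end Pool.Agent.ND
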