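import Pool.Agent.helper37.ND.Spec
import Pool.Agent.helper37.ND.GKR

/-!
# MP_baa4d7_al, THEOREM ND, row GIM: integrality of the twisted scalar products at `M`
-/

set_option autoImplicit false

namespace Pool.Agent.ND

open Pool.Agent.helper58.DC Pool.Agent.DI Pool.Agent.GR Pool.Agent.OB Pool.Agent.DR Pool.Agent.FI Pool.Agent.FI3 Pool.Agent.FI4 Pool.Agent.FI4I Pool.Agent.LE Pool.Agent.L5 Pool.Agent.NAB

theorem GIM (hKIP : KIP_stmt) (hAVG : AVG_stmt) (hDUN : DUN_stmt) (hNUD : NUD_stmt) (hZGD : ZGD_stmt)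
    (hZLM : ZLM_stmt) (hB2 : B2_stmt) : GIM_stmt := by
  intro p e m t M hM G _ _ χ Z z x hZ θ hθ ν θ' hθ'
  classical
  have hem := hZ.em
  have hθI : θ ∈ IrrOn (cz Z) := hθ.1
  obtain ⟨-, -, z', x', hu, hzz⟩ := hθ
  obtain ⟨zl1, zl2, zl3, zl4, zl5, zl6, zl7⟩ := hZLM p e t hM.pr G hZ.tx Z ν
  have hbθ := (hB2 G (cz Z)).2 θ hθI
  have hbθ' := (hB2 G (cz Z)).2 θ' hθ'
  -- the block
  have hBC : BC M (cz Z) (Bl M (cz Z) θ) := by
    refine ⟨fun φ h => h.1, fun φ hφ φ' hφ' hs => ⟨hφ', ?_⟩⟩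
    have h3 : SB M (cz Z) φ φ' := hs
    exact h3.symm.trans hφ.2
  -- the defect group
  obtain ⟨D, yD, hD, hzD, hzc, hDc⟩ := (hNUD p e m M hM G (cz Z) θ hθI z' x' hu).2
  have hDp : IsPGroup p D := hD.pg
  obtain ⟨d1, d2, d3, d4⟩ := hZGD p e m hM.pr hem G D hDp hDc z' hzD hzc hu.od
  rw [hzz] at d2
  -- the key condition
  have key : ∀ R : Subgroup G, R ≤ cz Z → IsPGroup p R → (∃ w ∈ cz Z, (∀ v ∈ R, v * w = w * v) ∧
      ¬ InM M (eS (cz Z) (Bl M (cz Z) θ) w)) → ∀ u ∈ R, ∀ v ∈ R, lam Z t ν (u * v) = lam Z t ν u * lam Z t ν v := by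
    rintro R hR hRp ⟨w, hw, hwR, hwM⟩
    obtain ⟨l, hl, hlD⟩ := (hDUN p M hM G (cz Z) θ hθI D yD hD).2.2 w hw hwM R hRp (by
      intro r hr
      refine ⟨hR hr, ?_⟩
      change r ∈ Subgroup.centralizer {w}
      rw [Subgroup.mem_centralizer_iff]
      intro y hy
      rw [Set.mem_singleton_iff.1 hy]
      exact (hwR r hr).symm)
    have hel : ∀ r ∈ R, PEl p r := by
      intro r hr
      obtain ⟨k, hk⟩ := hRp ⟨r, hr⟩
      exact ⟨k, congrArg Subtype.val hk⟩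
    -- powers
    have hpw : ∀ r ∈ R, r ^ t = (l⁻¹ * r * l) ^ p ^ (e - 3) ∧ r ^ t ∈ Z := by
      intro r hr
      have h1 : r ^ t = r ^ p ^ (e - 3) := hZ.tx.pe r (hel r hr)
      have h2 : (l⁻¹ * r * l) ^ p ^ (e - 3) = l⁻¹ * r ^ p ^ (e - 3) * l := by
        have h3 := conj_pow (i := p ^ (e - 3)) (a := l⁻¹) (b := r)
        rwa [inv_inv] at h3
      have h3 : (l⁻¹ * r * l) ^ p ^ (e - 3) ∈ Z := d2 _ (hlD r hr)
      have h4 : r ^ p ^ (e - 3) = (l⁻¹ * r * l) ^ p ^ (e - 3) := by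
        have h5 := Subgroup.mem_centralizer_iff.1 hl _ h3
        rw [h2] at h5 ⊢
        have h6 : l⁻¹ * r ^ p ^ (e - 3) * l * l = r ^ p ^ (e - 3) * l := by rw [h5]; group
        exact (mul_right_cancel h6).symm
      exact ⟨h1.trans h4, by rw [h1, h4]; exact h3⟩
    intro u hu v hv
    obtain ⟨u1, u2⟩ := hpw u hu
    obtain ⟨v1, v2⟩ := hpw v hv
    obtain ⟨w1, w2⟩ := hpw (u * v) (R.mul_mem hu hv)
    unfold lam
    rw [dif_pos u2, dif_pos v2, dif_pos w2]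
    have h7 : (⟨(u * v) ^ t, w2⟩ : Z) = ⟨u ^ t, u2⟩ * ⟨v ^ t, v2⟩ := by
      apply Subtype.ext
      change (u * v) ^ t = u ^ t * v ^ t
      have h8 : l⁻¹ * (u * v) * l = (l⁻¹ * u * l) * (l⁻¹ * v * l) := by group
      rw [w1, u1, v1, h8, d3 _ (hlD u hu) _ (hlD v hv)]
    rw [h7, map_mul, Units.val_mul]
  have hkip := hKIP p M hM G (cz Z) (Bl M (cz Z) θ) hBC (fun a b => lam Z t ν a * θ' a⁻¹ * θ b) 0 ?_ ?_ ?_
  · -- the value
    have hn : (Nat.card (cz Z) : ℂ) ≠ 0 := by exact_mod_cast Nat.card_pos.ne'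
    have e1 : ∀ a ∈ (cz Z : Set G), ∑ᶠ b ∈ (cz Z : Set G), lam Z t ν a * θ' a⁻¹ * θ b * Sf (Bl M (cz Z) θ) a b =
        (Nat.card (cz Z) : ℂ) * (st Z t ν θ a * θ' a⁻¹) := by
      intro a _
      have hfS : (Bl M (cz Z) θ).Finite := (hB2 G (cz Z)).1.subset hBC.sub
      have hfC : (cz Z : Set G).Finite := Set.toFinite _
      have e2 : ∑ᶠ b ∈ (cz Z : Set G), lam Z t ν a * θ' a⁻¹ * θ b * Sf (Bl M (cz Z) θ) a b =
          ∑ φ ∈ hfS.toFinset, lam Z t ν a * θ' a⁻¹ * φ a * ∑ b ∈ hfC.toFinset, θ b * φ b⁻¹ := by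
        rw [finsum_mem_eq_finite_toFinset_sum _ hfC]
        unfold Sf
        have e3 : ∀ b : G, ∑ᶠ φ ∈ Bl M (cz Z) θ, φ a * φ b⁻¹ = ∑ φ ∈ hfS.toFinset, φ a * φ b⁻¹ :=
          fun b => finsum_mem_eq_finite_toFinset_sum _ hfS
        simp only [e3, Finset.mul_sum]
        rw [Finset.sum_comm]
        refine Finset.sum_congr rfl fun φ _ => Finset.sum_congr rfl fun b _ => ?_
        ring
      rw [e2]
      have e4 : ∀ φ ∈ hfS.toFinset, lam Z t ν a * θ' a⁻¹ * φ a * ∑ b ∈ hfC.toFinset, θ b * φ b⁻¹ =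
          if φ = θ then (Nat.card (cz Z) : ℂ) * (st Z t ν θ a * θ' a⁻¹) else 0 := by
        intro φ hφ
        rw [Set.Finite.mem_toFinset] at hφ
        have e5 : ∑ b ∈ hfC.toFinset, θ b * φ b⁻¹ = ∑ᶠ b : G, θ b * φ b⁻¹ := by
          rw [← finsum_mem_eq_finite_toFinset_sum (fun b => θ b * φ b⁻¹) hfC, finsum_mem_def]
          refine finsum_congr fun y => ?_
          by_cases hy : y ∈ (cz Z : Set G)
          · rw [Set.indicator_of_mem hy]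
          · rw [Set.indicator_of_notMem hy, hbθ.2.2.2.1 y hy, zero_mul]
        rw [e5, hbθ.2.2.2.2 φ hφ.1]
        by_cases h3 : φ = θ
        · rw [if_pos h3.symm, if_pos h3, h3]
          unfold st
          ring
        · rw [if_neg (fun h => h3 h.symm), if_neg h3, mul_zero]
      rw [Finset.sum_congr rfl e4, Finset.sum_ite_eq', if_pos]
      rw [Set.Finite.mem_toFinset]
      exact ⟨hθI, SB.refl _ _⟩
    have e6 : ((Nat.card (cz Z) : ℂ) ^ 2)⁻¹ * ∑ᶠ a ∈ (cz Z : Set G), ∑ᶠ b ∈ (cz Z : Set G),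
        lam Z t ν a * θ' a⁻¹ * θ b * Sf (Bl M (cz Z) θ) a b = FI.mt (cz Z) (st Z t ν θ) θ' := by
      rw [finsum_mem_congr rfl e1, finsum_mem_eq_finite_toFinset_sum _ (Set.toFinite (cz Z : Set G)), ← Finset.mul_sum]
      unfold FI.mt
      rw [finsum_mem_eq_finite_toFinset_sum _ (Set.toFinite (cz Z : Set G))]
      field_simp
    rw [← e6]
    exact hkip
  · intro a _ b _
    rw [pow_zero, one_mul]
    exact IntAt.of_isIntegral hM (((zl6 a).mul (hbθ'.2.2.1 _)).mul (hbθ.2.2.1 _))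
  · intro a _ b _ h hh
    refine ⟨?_, ?_⟩
    · have h1 : (h * a * h⁻¹)⁻¹ = h * a⁻¹ * h⁻¹ := by group
      change lam Z t ν (h * a * h⁻¹) * θ' (h * a * h⁻¹)⁻¹ * θ b = lam Z t ν a * θ' a⁻¹ * θ b
      rw [zl3 h hh a, h1, hbθ'.2.1 a⁻¹ h hh]
    · have h2 := hbθ.2.1 b h hh
      change lam Z t ν a * θ' a⁻¹ * θ (h * b * h⁻¹) = lam Z t ν a * θ' a⁻¹ * θ b
      rw [h2]
  · intro R hR hRp hw y hy y' hy' hry hry' hRy hRy'
    have hmul := key R hR hRp hw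
    have hel : ∀ r ∈ R, PEl p r := by
      intro r hr
      obtain ⟨k, hk⟩ := hRp ⟨r, hr⟩
      exact ⟨k, congrArg Subtype.val hk⟩
    have h1 : lam Z t ν 1 = 1 := by
      have h2 := zl5.1 1 (by
        unfold PReg
        rw [orderOf_one]
        exact fun h => hM.pr.one_lt.ne' (Nat.dvd_one.1 h))
      exact h2
    have h2 := hAVG G (cz Z) R hR (lam Z t ν) hmul h1 θ' hθ' θ hθI y hy y' hy' hRy hRy'
    have h3 : (Nat.card R : ℂ)⁻¹ * ∑ᶠ v ∈ (R : Set G), lam Z t ν (v * y) * θ' (v * y)⁻¹ * θ (v * y') =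
        (Nat.card R : ℂ)⁻¹ * ∑ᶠ v ∈ (R : Set G), lam Z t ν v * θ' (v * y)⁻¹ * θ (v * y') := by
      congr 1
      refine finsum_mem_congr rfl fun v hv => ?_
      rw [(zl5.2 v y (hel v hv) hry (hRy v hv)).1]
    change IntAt M ((Nat.card R : ℂ)⁻¹ * ∑ᶠ v ∈ (R : Set G), lam Z t ν (v * y) * θ' (v * y)⁻¹ * θ (v * y'))
    rw [h3]
    exact IntAt.of_isIntegral hM h2

end Pool.Agent.ND
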