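import Mathlib
import Pool.Agent.helper12.FI.All
import Pool.Agent.helper13.ND.BLB
import Pool.Agent.helper14.ND.GDF
import Pool.Agent.helper20.ND.GUC
import Pool.Agent.helper22.FI.AllA
import Pool.Agent.helper22.OB.AllG
import Pool.Agent.helper23.ND.GCL
import Pool.Agent.helper26.ND.GKN
import Pool.Agent.helper30.ND.PMS
import Pool.Agent.helper31.ND.GGR
import Pool.Agent.helper35.DR.All
import Pool.Agent.helper35.DR.AllDI
import Pool.Agent.helper35.ND.GOB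
import Pool.Agent.helper37.NA.All
import Pool.Agent.helper37.NA.AllE
import Pool.Agent.helper37.ND.GIM
import Pool.Agent.helper37.ND.GKR
import Pool.Agent.helper37.ND.GVF
import Pool.Agent.helper37.ND.Spec
import Pool.Agent.helper40.ND.GC1
import Pool.Agent.helper40.ND.GOS
import Pool.Agent.helper43.ND.TEX
import Pool.Agent.helper43.ND.ZGD
import Pool.Agent.helper48.ND.GRT
import Pool.Agent.helper50.ND.GSY
import Pool.Agent.helper51.ND.BLA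
import Pool.Agent.helper51.ND.ZLM
import Pool.Agent.helper58.FI.AllC
import Pool.Agent.helper59.FI4.AllI
import Pool.Agent.helper59.ND.GST
import Pool.Agent.helper61.ND.KC1
import Pool.Agent.helper63.ND.GIL
import Pool.Agent.helper69.ND.KIP
import Pool.Agent.helper70.ND.GQQ
import Pool.Agent.helper70.ND.GS4
import Pool.Agent.helper71.ND.AVG
import Pool.Agent.helper71.ND.KCH
import Pool.Agent.helper71.ND.ZGP
import Pool.Agent.helper72.ND.GNV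
import Pool.Agent.helper73.ND.GSP
import Pool.Agent.helper77.ND.BLI
import Pool.Agent.helper78.ND.GBC
import Pool.Agent.helper79.ND.KCO
import Pool.Agent.helper8.ND.GFX
import Pool.Agent.helper8.ND.GKQ
import Pool.Agent.helper83.GR.All
import Pool.Agent.helper83.ND.GEV
import Pool.Agent.helper89.ND.GAC
import Pool.Agent.helper89.ND.GVN
import Pool.Agent.helper90.ND.ZNU
import Pool.Agent.helper92.ND.GOU
import Pool.Agent.helper97.ND.GKD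
import Pool.Agent.helper97.ND.GKE
import Pool.Agent.helper97.ND.NDQ
import Pool.Agent.helper97.ND.TDC
import Pool.Agent.helper97.ND.TDF
import Pool.Agent.helper97.ND.TDI
import Pool.Agent.helper97.ND.TDL

/-!
# MP_baa4d7_al, THEOREM ND: all rows without hypotheses (specifications: `helper37/ND/SpecP`, `SpecC`, `Spec`)
-/

set_option autoImplicit false

namespace Pool.Agent.ND.All

open Pool.Agent.helper58.DC Pool.Agent.DI Pool.Agent.GR Pool.Agent.OB Pool.Agent.DR Pool.Agent.FI Pool.Agent.FI3 Pool.Agent.FI4 Pool.Agent.FI4I Pool.Agent.FI4E Pool.Agent.LE Pool.Agent.L5 Pool.Agent.NAB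

theorem nAVG : AVG_stmt := ND.AVG
theorem nBLA : BLA_stmt := ND.BLA
theorem nBLB : BLB_stmt := ND.BLB nBLA
theorem nBLI : BLI_stmt := ND.BLI nBLA nBLB GR.All.dPPT
theorem nPMS : PMS_stmt := ND.PMS nBLA GR.All.dORB GR.All.dPRD
theorem nKCH : KCH_stmt := ND.KCH
theorem nKCO : KCO_stmt := ND.KCO nKCH
theorem nKC1 : KC1_stmt := ND.KC1 nKCH
theorem nTEX : TEX_stmt := ND.TEX
theorem nZGP : ZGP_stmt := ND.ZGP
theorem nZGD : ZGD_stmt := ND.ZGD nZGP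
theorem nZLM : ZLM_stmt := ND.ZLM
theorem nZNU : ZNU_stmt := ND.ZNU NAB.All.aNUD FI.AllA.dDEX nZGD nZGP
theorem nGBC : GBC_stmt := ND.GBC NAB.All.aNUB FI.AllA.dCJG nZGP FI.AllA.dTPR FI.AllA.dTRN GR.All.dB2 FI.AllC.cFEQ
theorem nGUC : GUC_stmt := ND.GUC FI.AllA.dEXB FI.AllA.dTRN NAB.All.aNUH NAB.All.aNUB nZNU nZGP
theorem nGVN : GVN_stmt := ND.GVN FI.AllA.dBRY FI.AllA.dSTC FI.AllA.dCNTL FI.AllA.dSYL GR.All.dB2
theorem nGSP : GSP_stmt := ND.GSP nGVN NAB.All.aNUD nZGD nZGP nZLM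
theorem nGIL : GIL_stmt := ND.GIL nBLI nAVG nZLM GR.All.dB2
theorem nGRT : GRT_stmt := ND.GRT GR.All.dGLP nZLM
theorem nGOB : GOB_stmt := ND.GOB nZLM
theorem nGS4 : GS4_stmt := ND.GS4 FI.AllA.dSBI FI.AllA.dDCM FI.AllA.dCLS nZNU nZGP FI.AllA.dCJG FI.AllA.dTRN GR.All.dC3
theorem nGKR : GKR_stmt := ND.GKR FI.AllA.dBRY GR.All.dBR0 GR.All.dSFC FI.AllA.dEXB FI.AllA.dTRN FI.AllA.dSYL GR.All.dB2
theorem nGDF : GDF_stmt := ND.GDF GR.All.dB2 FI.AllA.dCLS GR.All.dC3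
theorem nGCL : GCL_stmt := ND.GCL GR.All.dIRT DR.AllDI.iB9 DR.All.rCCJ GR.All.dB2
theorem nGKN : GKN_stmt := ND.GKN GR.All.dPPT FI.AllA.dBRY GR.All.dB2
theorem nGKQ : GKQ_stmt := ND.GKQ FI.AllA.dEXB FI.AllA.dTRN NAB.All.aNUH NAB.All.aNUE NAB.All.aNEG FI.AllA.dSYL NAB.All.aNQU
theorem nTDC : TDC_stmt := ND.TDC NAB.All.aNEG NAB.All.aNUB FI.AllA.dCJG NAB.All.aNUF NAB.All.aNUE
theorem nGKE : GKE_stmt := ND.GKE nGKN nGKQ NAB.All.aNLC NAB.All.aNQU nTDC FI.AllA.dTPR GR.All.dB2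
theorem nTDI : TDI_stmt := ND.TDI NAB.All.aNEG NAB.All.aNTK FI4I.AllI.iTR1 FI4I.AllI.iTR2 FI4I.AllI.iTR3 FI.AllA.dTPR GR.All.dB2
theorem nTDL : TDL_stmt := ND.TDL NAB.AllE.eXPB nTDI nTDC NAB.All.aNUH NAB.All.aNUX FI.AllA.dTRN FI.AllA.dTPR GR.All.dB2
theorem nTDF : TDF_stmt := ND.TDF nTDL NAB.All.aNTG FI.AllC.cFT0 FI.AllC.cFNO NAB.All.aNEG
theorem nKIP : KIP_stmt := ND.KIP nBLI nPMS GR.All.dIDM GR.All.dEIN GR.All.dSFC
theorem nGIM : GIM_stmt := ND.GIM nKIP nAVG FI.AllA.dDUN NAB.All.aNUD nZGD nZLM GR.All.dB2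
theorem nGST : GST_stmt := ND.GST nGIM nGIL nGRT nZLM GR.All.dB2 GR.All.dEXP FI.AllQ.qQEI FI.AllC.cFBC NAB.All.aNUB FI.AllA.dTRN
theorem nGOS : GOS_stmt := ND.GOS nZGP nZLM nGST FI.AllA.dCLS
theorem nGFX : GFX_stmt := ND.GFX nGS4 nGST nGOB nZLM nZGP
theorem nGAC : GAC_stmt := ND.GAC nGFX nGOS nGOB nGST nGBC
theorem nGGR : GGR_stmt := ND.GGR nGKR nGSP nGST GR.All.dB2 FI.AllA.dCJG FI.AllA.dTRN
theorem nGOU : GOU_stmt := ND.GOU nGGR nGUC nGBC DR.AllDI.iB3 GR.All.dB2 FI.AllQ.qQRS nGST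
theorem nGSY : GSY_stmt := ND.GSY nZGP nGGR nGSP nGUC nGBC nGOB FI.AllQ.qQRS GR.All.dBR0 GR.All.dB2
theorem nGVF : GVF_stmt := ND.GVF FI.AllA.dBRY GR.All.dBR0 GR.All.dSFC GR.All.dPPT GR.All.dB2 FI.AllA.dEXB FI.AllA.dTRN FI.AllA.dSYL FI.AllA.dDEX nGST nGVN NAB.All.aNUH nZNU nZLM nZGP nGUC nGBC
theorem nGNV : GNV_stmt := ND.GNV nGVF nGST FI.AllA.dCLS
theorem nGC1 : GC1_stmt := ND.GC1 nKC1 nGAC nGSY nZGP
theorem nGEV : GEV_stmt := ND.GEV nGFX nGOS nGOB nGST nGBC nZGP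
theorem nGQQ : GQQ_stmt := ND.GQQ nGC1 nGEV nGCL nGOU nGOB nZNU NAB.All.aNUB nZGP FI.AllA.dCJG DR.AllDI.iB3 GR.All.dB2 FI.AllQ.qQRS
theorem nGKD : GKD_stmt := ND.GKD nKCO nGAC nGSY nGVF nGNV nGDF nGQQ nGKE nGST nGBC NAB.All.aNXU NAB.All.aNUF NAB.All.aNQU NAB.All.aNUB nZGP nTEX FI.AllA.dTPR GR.All.dB2
theorem nNDQ : NDQ_stmt := ND.NDQ NAB.All.aNEG nTDF nGKD NAB.All.aNMP OB.AllG.gDG6 FI.AllA.dCLS FI.AllA.dTPR FI.AllA.dSYL

end Pool.Agent.ND.All
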