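import Mathlib
import Pool.Agent.helper37.ND.All
import Pool.Agent.helper37.ND.DefsT
import Pool.Agent.helper37.ND.XD
import Pool.Agent.helper12.NA.CYC

/-!
# MP_baa4d7_al, THEOREM ND: the final theorem (every `d`; `E_B / E[B]` cyclic of order prime to `p`)
-/

set_option autoImplicit false

namespace Pool.Agent.NDS

open Pool.Agent.helper58.DC Pool.Agent.DI

theorem her_central (p : ℕ) : Pool.Agent.XD.Her (fun _ _ D => LargeCentral p D) := by
  rintro G E _ _ i hi D ⟨e, m, z, hz, hzc, hoz, hcard, h1, h2⟩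
  refine ⟨e, m, i z, ⟨z, hz, rfl⟩, ?_, ?_, ?_, h1, h2⟩
  · rintro _ ⟨d, hd, rfl⟩
    rw [← map_mul, ← map_mul, hzc d hd]
  · rw [orderOf_injective i hi, hoz]
  · rw [Subgroup.card_map_of_injective hi]
    exact hcard

theorem her_cyclic (p : ℕ) : Pool.Agent.XD.Her (fun _ _ D => LargeCyclicSubgroup p D) := by
  rintro G E _ _ i hi D ⟨hp, a, r, y, hy, hoy, hcard, h1, h2⟩
  refine ⟨hp, a, r, i y, ⟨y, hy, rfl⟩, ?_, ?_, h1, h2⟩
  · rw [orderOf_injective i hi, hoy]
  · rw [Subgroup.card_map_of_injective hi]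
    exact hcard

theorem her_or (p : ℕ) : Pool.Agent.XD.Her (fun _ _ D => LargeCentral p D ∨ LargeCyclicSubgroup p D) := by
  rintro G E _ _ i hi D (h | h)
  · exact Or.inl (her_central p G E i hi D h)
  · exact Or.inr (her_cyclic p G E i hi D h)

/-- A cyclic subgroup of small index gives a central one. -/
theorem cyclic_central {G : Type} [Group G] [Finite G] {p : ℕ} (hp : p.Prime) (D : Subgroup G) (hD : IsPGroup p D)
    (h : LargeCyclicSubgroup p D) : LargeCentral p D := by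
  obtain ⟨hp2, a, r, y, hy, hoy, hcard, har, har'⟩ := h
  have hpf : Fact p.Prime := ⟨hp⟩
  obtain ⟨n, hn⟩ := IsPGroup.iff_card.1 hD
  have hdvd : orderOf y ∣ Nat.card D := by
    have := orderOf_dvd_natCard (⟨y, hy⟩ : D)
    rwa [Subgroup.orderOf_mk] at this
  have han : a ≤ n := by
    rw [hoy, hn] at hdvd
    exact (Nat.pow_dvd_pow_iff_le_right hp.one_lt).1 hdvd
  have hnr : n ≤ a + r := by
    rw [hn] at hcard
    exact (Nat.pow_le_pow_iff_right hp.one_lt).1 hcard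
  obtain ⟨r', hr'⟩ : ∃ r' : ℕ, n = a + r' := ⟨n - a, by omega⟩
  have hr'r : r' ≤ r := by omega
  obtain ⟨h1, h2, -⟩ := Pool.Agent.NA.CYC_sub D p hp hp2 hD y hy (p ^ r') (by rw [hn, hoy, hr', pow_add, mul_comm])
  refine ⟨a - r', 2 * r', y ^ p ^ r', h1, fun d hd => (h2 d hd).symm, ?_, ?_, ?_, ?_⟩
  · rw [orderOf_pow_of_dvd (pow_pos hp.pos _).ne', hoy]
    · exact Nat.pow_div (by omega) hp.pos
    · rw [hoy]
      exact pow_dvd_pow p (by omega)
  · rw [hn]
    exact Nat.pow_le_pow_right hp.pos (by omega)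
  · rw [if_neg hp2]
    omega
  · omega

/-- Every `d`, `E = G`. -/
theorem FinT_G (p : ℕ) (hpr : p.Prime) (M : Ideal (integralClosure ℤ ℂ)) (hM : M.IsMaximal)
    (hp : (p : integralClosure ℤ ℂ) ∈ M) (d : ℤ) (G : Type) [Group G] [Finite G] (hG : IsOp p (⊤ : Subgroup G) ⊥)
    (χ : G → ℂ) (hχ : χ ∈ Irr G) (D : Subgroup G) (hD : Pool.Agent.MAP.DefectGroup p M χ D)
    (hL : LargeCentral p D ∨ LargeCyclicSubgroup p D) : altSum (trivE G) p M χ d ⊤ = 0 := by
  have hDp : IsPGroup p D := by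
    obtain ⟨x, -, -, -, h, -⟩ := hD
    exact h
  have hL' : LargeCentral p D := by
    rcases hL with h | h
    · exact h
    · exact cyclic_central hpr D hDp h
  obtain ⟨e, m, z, hz, hzc, hoz, hcard, hem, hem'⟩ := hL'
  exact Pool.Agent.ND.All.nNDQ p e m M ⟨hpr, hM, hp⟩ (by unfold Pool.Agent.NAB.bz; omega) hem' G χ hχ D hD hcard z hz
    (fun d hd => hzc d hd) hoz hG d

/-- Dade's conjecture for blocks whose defect group has a large central cyclic subgroup, for every `d`. -/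
theorem FinT_dade (p : ℕ) (hpr : p.Prime) (M : Ideal (integralClosure ℤ ℂ)) (hM : M.IsMaximal)
    (hp : (p : integralClosure ℤ ℂ) ∈ M) (G : Type) [Group G] [Finite G] (hG : IsOp p (⊤ : Subgroup G) ⊥)
    (χ : G → ℂ) (hχ : χ ∈ Irr G) (D : Subgroup G) (hD : Pool.Agent.MAP.DefectGroup p M χ D)
    (hL : LargeCentral p D ∨ LargeCyclicSubgroup p D)
    (E A : Type) [Group E] [Group A] [Finite E] (X : Extension G E A) (s : A) (n : ℕ)
    (hsn : s ^ n ∈ Pool.Agent.BQ.AI X M χ) (hpn : ¬ p ∣ n)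
    (hs : ∀ a ∈ Pool.Agent.BQ.AB X M χ, ∃ k : ℤ, s ^ k * a ∈ Pool.Agent.BQ.AI X M χ) (d : ℤ) (U : Subgroup A) :
    altSum X p M χ d U = 0 :=
  Pool.Agent.XD.main ⟨hpr, hM, hp⟩ (Pool.Agent.XD.Fun_eval d) (her_or p)
    (fun G _ _ hG χ hχ D hD hP => FinT_G p hpr M hM hp d G hG χ hχ D hD hP) G hG χ hχ D hD hL E A X s n hsn hpn hs U

end Pool.Agent.NDS
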